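import Pool.Agent.W472.AC.Siegel

/-!
# Small integer relations between power series
-/

set_option autoImplicit false

namespace Pool.Agent.W472.AC

open Finset Polynomial Module

/-- the polynomial with coefficients `w 0, w 1, …` -/
noncomputable def pol {R : Type} [CommRing R] {n : ℕ} (w : Fin n → R) : R[X] :=
  ∑ l : Fin n, C (w l) * X ^ (l : ℕ)

lemma pol_coeff {R : Type} [CommRing R] {n : ℕ} (w : Fin n → R) (i : ℕ) :
    (pol w).coeff i = if h : i < n then w ⟨i, h⟩ else 0 := by
  unfold pol
  rw [finsetSum_coeff]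
  simp only [coeff_C_mul, coeff_X_pow]
  split_ifs with h
  · rw [Finset.sum_eq_single ⟨i, h⟩]
    · simp
    · intro b _ hb
      rw [if_neg, mul_zero]
      intro hh
      apply hb
      exact Fin.ext hh.symm
    · intro h'
      exact absurd (Finset.mem_univ _) h'
  · refine Finset.sum_eq_zero fun b _ => ?_
    rw [if_neg, mul_zero]
    intro hh
    have := b.2
    omega

lemma pol_natDegree {R : Type} [CommRing R] {n : ℕ} (w : Fin (n + 1) → R) :
    (pol w).natDegree ≤ n := by
  rw [natDegree_le_iff_coeff_eq_zero]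
  intro N hN
  rw [pol_coeff, dif_neg (by omega)]

lemma pol_of_coeff {R : Type} [CommRing R] (n : ℕ) (p : R[X]) (hp : p.natDegree < n) :
    pol (fun l : Fin n => p.coeff l) = p := by
  ext i
  rw [pol_coeff]
  split_ifs with h
  · rfl
  · rw [coeff_eq_zero_of_natDegree_lt (by omega)]

lemma pol_eq_zero {R : Type} [CommRing R] {n : ℕ} (w : Fin n → R) (h : pol w = 0) : w = 0 := by
  funext l
  have h1 := pol_coeff w l
  rw [h, coeff_zero, dif_pos l.2] at h1
  exact h1.symm

lemma coeff_sum_pol {R : Type} [CommRing R] {m n : ℕ} (G : Fin m → R[X])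
    (w : Fin m × Fin n → R) (i : ℕ) :
    (∑ j, pol (fun l => w (j, l)) * G j).coeff i =
      ∑ p : Fin m × Fin n, (X ^ (p.2 : ℕ) * G p.1).coeff i * w p := by
  rw [finsetSum_coeff, Fintype.sum_prod_type]
  refine Finset.sum_congr rfl fun j _ => ?_
  unfold pol
  rw [Finset.sum_mul, finsetSum_coeff]
  refine Finset.sum_congr rfl fun l _ => ?_
  rw [mul_assoc, coeff_C_mul, mul_comm]

/-- from a rational relation to a relation with small integer coefficients -/
theorem small_rel (m k δ N B κ : ℕ) (hB : 1 ≤ B) (G : Fin (m + 1) → ℤ[X])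
    (hG : ∀ j i, |(G j).coeff i| ≤ B) (h : Fin (m + 1) → ℚ[X]) (hne : h ≠ 0)
    (hk : ∀ j, (h j).natDegree ≤ k)
    (hrel : X ^ N ∣ ∑ j, h j * (G j).map (Int.castRingHom ℚ))
    (hκ : (m + 1) * (k + δ + 1) ≤ κ * (δ + 1)) :
    ∃ t : Fin (m + 1) → ℤ[X], t ≠ 0 ∧ (∀ j, (t j).natDegree ≤ k + δ) ∧
      (∀ j i, |(t j).coeff i| ≤ (((m + 1) * (k + δ + 1) * B) ^ κ : ℕ)) ∧
      X ^ N ∣ ∑ j, t j * G j := by
  classical
  set A : Matrix (Fin N) (Fin (m + 1) × Fin (k + δ + 1)) ℤ :=
    Matrix.of fun i p => (X ^ (p.2 : ℕ) * G p.1).coeff i with hA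
  have hAB : ∀ i p, |A i p| ≤ B := by
    intro i p
    simp only [hA, Matrix.of_apply]
    rw [coeff_X_pow_mul']
    split_ifs
    · exact hG _ _
    · rw [abs_zero]; exact_mod_cast (by omega : 0 ≤ B)
  set f : (Fin (δ + 1) → ℚ) →ₗ[ℚ] (Fin (m + 1) × Fin (k + δ + 1) → ℚ) :=
    { toFun := fun g p => (pol g * h p.1).coeff p.2
      map_add' := by
        intro g g'
        funext p
        have : pol (g + g') = pol g + pol g' := by
          unfold pol
          rw [← Finset.sum_add_distrib]
          refine Finset.sum_congr rfl fun l _ => ?_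
          rw [Pi.add_apply, C_add, add_mul]
        simp only [this, add_mul, coeff_add, Pi.add_apply]
      map_smul' := by
        intro a g
        funext p
        have : pol (a • g) = C a * pol g := by
          unfold pol
          rw [Finset.mul_sum]
          refine Finset.sum_congr rfl fun l _ => ?_
          rw [Pi.smul_apply, smul_eq_mul, C_mul, mul_assoc]
        simp only [this, mul_assoc, coeff_C_mul, Pi.smul_apply, smul_eq_mul, RingHom.id_apply] }
    with hf
  have hfa : ∀ g p, f g p = (pol g * h p.1).coeff p.2 := fun _ _ => rfl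
  have hdeg : ∀ (g : Fin (δ + 1) → ℚ) (j), (pol g * h j).natDegree < k + δ + 1 := by
    intro g j
    refine lt_of_le_of_lt natDegree_mul_le ?_
    have h1 := pol_natDegree g
    have h2 := hk j
    omega
  have hinj : Function.Injective f := by
    rw [← LinearMap.ker_eq_bot, LinearMap.ker_eq_bot']
    intro g hg
    obtain ⟨j, hj⟩ : ∃ j, h j ≠ 0 := by
      by_contra hcon
      push Not at hcon
      exact hne (funext hcon)
    have h1 : pol g * h j = 0 := by
      rw [← pol_of_coeff (k + δ + 1) (pol g * h j) (hdeg g j)]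
      have : (fun l : Fin (k + δ + 1) => (pol g * h j).coeff l) = 0 := by
        funext l
        have := congrFun hg (j, l)
        exact this
      rw [this]
      unfold pol
      simp
    exact pol_eq_zero g ((mul_eq_zero.1 h1).resolve_right hj)
  have hAf : ∀ g, (A.map (Int.cast : ℤ → ℚ)).mulVec (f g) = 0 := by
    intro g
    funext i
    have h1 := coeff_sum_pol (fun j => (G j).map (Int.castRingHom ℚ)) (f g) i
    have h2 : ∀ j, pol (fun l => f g (j, l)) = pol g * h j := fun j =>
      pol_of_coeff (k + δ + 1) (pol g * h j) (hdeg g j)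
    have h3 : ∑ j, pol (fun l => f g (j, l)) * (G j).map (Int.castRingHom ℚ) =
        pol g * ∑ j, h j * (G j).map (Int.castRingHom ℚ) := by
      rw [Finset.mul_sum]
      refine Finset.sum_congr rfl fun j _ => ?_
      rw [h2, mul_assoc]
    rw [h3] at h1
    have h4 : (pol g * ∑ j, h j * (G j).map (Int.castRingHom ℚ)).coeff i = 0 :=
      X_pow_dvd_iff.1 (Dvd.dvd.mul_left hrel _) i i.2
    rw [h4] at h1
    show ∑ p, ((A i p : ℤ) : ℚ) * f g p = 0
    rw [h1]
    refine Finset.sum_congr rfl fun p _ => ?_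
    congr 1
    simp only [hA, Matrix.of_apply]
    rw [show (X ^ (p.2 : ℕ) * (G p.1).map (Int.castRingHom ℚ) : ℚ[X]) =
      (X ^ (p.2 : ℕ) * G p.1).map (Int.castRingHom ℚ) by simp, coeff_map]
    rfl
  have hcard : Fintype.card (Fin (m + 1) × Fin (k + δ + 1)) = (m + 1) * (k + δ + 1) := by simp
  obtain ⟨v, hv0, hvA, hvB⟩ := siegel_rank A B hB hAB (δ + 1) κ (by omega) (by rw [hcard]; exact hκ)
    f hinj hAf
  refine ⟨fun j => pol (fun l => v (j, l)), ?_, fun j => pol_natDegree _, ?_, ?_⟩
  · intro h0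
    apply hv0
    funext p
    have h1 := pol_eq_zero _ (congrFun h0 p.1)
    exact congrFun h1 p.2
  · intro j i
    rw [pol_coeff]
    split_ifs
    · rw [← hcard]; exact hvB _
    · rw [abs_zero]; positivity
  · rw [X_pow_dvd_iff]
    intro d hd
    rw [coeff_sum_pol]
    have := congrFun hvA ⟨d, hd⟩
    exact this

/-- `s ↦ s / (1 - b X)` for polynomials vanishing at `1 / b` -/
lemma div_lin (b H K : ℕ) (hb : 2 ≤ b) (t : ℤ[X]) (hK : t.natDegree ≤ K + 1)
    (hH : ∀ i, |t.coeff i| ≤ H) (h0 : ∑ i ∈ range (K + 2), t.coeff i * (b : ℤ) ^ (K + 1 - i) = 0) :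
    ∃ s : ℤ[X], s.natDegree ≤ K ∧ (∀ i, |s.coeff i| ≤ H) ∧ t = (1 - C (b : ℤ) * X) * s := by
  set q : ℕ → ℤ := fun i => ∑ l ∈ range (i + 1), t.coeff l * (b : ℤ) ^ (i - l) with hq
  have hq0 : q 0 = t.coeff 0 := by simp [hq]
  have hqs : ∀ i, q (i + 1) = t.coeff (i + 1) + b * q i := by
    intro i
    simp only [hq]
    rw [Finset.sum_range_succ _ (i + 1), Nat.sub_self, pow_zero, mul_one, add_comm, Finset.mul_sum]
    congr 1
    refine Finset.sum_congr rfl fun l hl => ?_
    rw [mem_range] at hl
    rw [show i + 1 - l = (i - l) + 1 by omega, pow_succ]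
    ring
  have hqK : q (K + 1) = 0 := h0
  have hqz : ∀ i, K + 1 ≤ i → q i = 0 := by
    intro i hi
    induction i, hi using Nat.le_induction with
    | base => exact hqK
    | succ i hi ih => rw [hqs, ih, coeff_eq_zero_of_natDegree_lt (by omega)]; simp
  refine ⟨pol (fun l : Fin (K + 1) => q l), pol_natDegree _, ?_, ?_⟩
  · have hco : ∀ i, (pol (fun l : Fin (K + 1) => q l)).coeff i = q i := by
      intro i
      rw [pol_coeff]
      split_ifs with h
      · rfl
      · rw [hqz i (by omega)]
    have hbZ : (2 : ℤ) ≤ b := by exact_mod_cast hb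
    have key : ∀ e i, K + 1 ≤ i + e → |q i| ≤ H := by
      intro e
      induction e with
      | zero =>
        intro i hi
        rw [hqz i (by omega), abs_zero]
        exact_mod_cast Nat.zero_le H
      | succ e ih =>
        intro i hi
        have h1 := ih (i + 1) (by omega)
        have h2 := hqs i
        have h3 : |(b : ℤ) * q i| ≤ 2 * H := by
          calc |(b : ℤ) * q i| = |q (i + 1) - t.coeff (i + 1)| := by rw [h2]; ring_nf
            _ ≤ |q (i + 1)| + |t.coeff (i + 1)| := abs_sub _ _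
            _ ≤ 2 * H := by linarith [hH (i + 1)]
        rw [abs_mul, abs_of_nonneg (by omega : (0 : ℤ) ≤ b)] at h3
        nlinarith [abs_nonneg (q i)]
    intro i
    rw [hco]
    exact key (K + 1) i (by omega)
  · have hco : ∀ i, (pol (fun l : Fin (K + 1) => q l)).coeff i = q i := by
      intro i
      rw [pol_coeff]
      split_ifs with h
      · rfl
      · rw [hqz i (by omega)]
    ext i
    rw [sub_mul, one_mul, coeff_sub, mul_assoc, coeff_C_mul]
    cases i with
    | zero => rw [hco, hq0]; simp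
    | succ i => rw [coeff_X_mul, hco, hco, hqs]; ring

/-- one may assume that the relation does not vanish at `1 / b` -/
theorem nonvanish (m N b H : ℕ) (hb : 2 ≤ b) (G : Fin (m + 1) → ℤ[X]) :
    ∀ (K : ℕ) (t : Fin (m + 1) → ℤ[X]), t ≠ 0 → (∀ j, (t j).natDegree ≤ K) →
      (∀ j i, |(t j).coeff i| ≤ H) → X ^ N ∣ ∑ j, t j * G j →
      ∃ s : Fin (m + 1) → ℤ[X], (∀ j, (s j).natDegree ≤ K) ∧ (∀ j i, |(s j).coeff i| ≤ H) ∧
        X ^ N ∣ ∑ j, s j * G j ∧ ∃ j, ∑ i ∈ range (K + 1), (s j).coeff i * (b : ℤ) ^ (K - i) ≠ 0 := by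
  intro K
  induction K with
  | zero =>
    intro t ht hd hH hX
    refine ⟨t, hd, hH, hX, ?_⟩
    by_contra hcon
    push Not at hcon
    apply ht
    funext j
    have h1 := hcon j
    simp only [zero_add, Finset.range_one, Finset.sum_singleton, le_refl, Nat.sub_self, pow_zero,
      mul_one] at h1
    rw [eq_C_of_natDegree_le_zero (hd j), h1, C_0]
    rfl
  | succ K ih =>
    intro t ht hd hH hX
    by_cases hcon : ∃ j, ∑ i ∈ range (K + 2), (t j).coeff i * (b : ℤ) ^ (K + 1 - i) ≠ 0
    · exact ⟨t, hd, hH, hX, hcon⟩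
    · push Not at hcon
      choose s hs1 hs2 hs3 using fun j => div_lin b H K hb (t j) (hd j) (hH j) (hcon j)
      have hs0 : s ≠ 0 := by
        intro h
        apply ht
        funext j
        rw [hs3 j, h]
        simp
      have hsum : ∑ j, t j * G j = (1 - C (b : ℤ) * X) * ∑ j, s j * G j := by
        rw [Finset.mul_sum]
        refine Finset.sum_congr rfl fun j _ => ?_
        rw [hs3 j]
        ring
      have hcop : IsCoprime (X ^ N : ℤ[X]) (1 - C (b : ℤ) * X) := by
        apply IsCoprime.pow_left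
        exact ⟨C (b : ℤ), 1, by ring⟩
      rw [hsum] at hX
      obtain ⟨u, hu1, hu2, hu3, j, hj⟩ := ih s hs0 hs1 hs2 (hcop.dvd_of_dvd_mul_left hX)
      refine ⟨u, fun j => (hu1 j).trans (by omega), hu2, hu3, j, ?_⟩
      have e : ∑ i ∈ range (K + 2), (u j).coeff i * (b : ℤ) ^ (K + 1 - i) =
          b * ∑ i ∈ range (K + 1), (u j).coeff i * (b : ℤ) ^ (K - i) := by
        rw [Finset.sum_range_succ, coeff_eq_zero_of_natDegree_lt (by have := hu1 j; omega),
          zero_mul, add_zero, Finset.mul_sum]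
        refine Finset.sum_congr rfl fun i hi => ?_
        rw [mem_range] at hi
        rw [show K + 1 - i = (K - i) + 1 by omega, pow_succ]
        ring
      rw [e]
      have hbZ : (b : ℤ) ≠ 0 := by exact_mod_cast (by omega : b ≠ 0)
      exact mul_ne_zero hbZ hj

end Pool.Agent.W472.AC
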