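import Pool.Agent.W472.AC.EMeas

/-!
# Measure of linear independence of powers of `e`: asymptotic form
-/

set_option autoImplicit false

namespace Pool.Agent.W472.AC

open Finset Polynomial Module Filter Nat

/-- threshold for the heights -/
noncomputable def RR (m K N : ℕ) : ℝ :=
  ((N - 1)! : ℝ) / (2 * (m + 1) * Real.exp K * (K : ℝ) ^ ((m + 1) * N - 1))

/-- size of the multiplier -/
noncomputable def QB (m K N : ℕ) : ℝ :=
  (2 * (K : ℝ)) ^ ((m + 1) * N - 1) * (((m + 1) * N - 1)! : ℝ) / ((N - 1)! : ℝ)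

lemma RR_pos (m K N : ℕ) (hK : 1 ≤ K) : 0 < RR m K N := by
  have hf : (0 : ℝ) < ((N - 1)! : ℝ) := by exact_mod_cast Nat.factorial_pos _
  have hKR : (0 : ℝ) < K := by exact_mod_cast hK
  unfold RR
  positivity

lemma RR_ge (m K n : ℕ) (hK : 1 ≤ K) :
    (n ! : ℝ) ≤ RR m K (n + 1) * ((2 * (m + 1) * Real.exp K * (K : ℝ) ^ (m + 1)) *
      ((K : ℝ) ^ (m + 1)) ^ n) := by
  have hKR : (1 : ℝ) ≤ K := by exact_mod_cast hK
  have hK0 : (0 : ℝ) < K := by linarith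
  unfold RR
  rw [Nat.add_sub_cancel, div_mul_eq_mul_div, le_div_iff₀ (by positivity)]
  refine mul_le_mul_of_nonneg_left ?_ (by positivity)
  have e : (2 * ((m : ℝ) + 1) * Real.exp K * (K : ℝ) ^ (m + 1)) * ((K : ℝ) ^ (m + 1)) ^ n =
      2 * (m + 1) * Real.exp K * (K : ℝ) ^ ((m + 1) * (n + 1)) := by
    rw [← pow_mul, mul_assoc, ← pow_add]
    congr 2
    ring
  rw [e]
  refine mul_le_mul_of_nonneg_left ?_ (by positivity)
  exact pow_le_pow_right₀ hKR (Nat.sub_le _ _)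

lemma QB_le (m K n l : ℕ) (hK : 1 ≤ K) :
    QB m K (n + 1 + l) ≤
      ((2 * (K : ℝ) * (m + 1)) ^ (m + 1)) ^ (l + 1) * ((l + 1 : ℝ) ^ ((l + 1) * m + 1)) *
        (((2 * (K : ℝ) * (m + 1)) ^ (m + 1)) * 2 ^ ((l + 1) * m + 1)) ^ n * (n ! : ℝ) ^ m := by
  have hKR : (1 : ℝ) ≤ K := by exact_mod_cast hK
  have hK0 : (0 : ℝ) < K := by linarith
  have hm0 : (0 : ℝ) ≤ m := Nat.cast_nonneg _
  obtain ⟨N, hN⟩ : ∃ N : ℕ, N = n + 1 + l := ⟨_, rfl⟩
  rw [← hN]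
  have hN1 : 1 ≤ N := by omega
  have h1 : QB m K N ≤ (2 * (K : ℝ)) ^ ((m + 1) * N) *
      (((m + 1 : ℝ) ^ ((m + 1) * N)) * N * ((N ! : ℕ) : ℝ) ^ m) := by
    unfold QB
    rw [mul_div_assoc]
    refine mul_le_mul ?_ (fact_mul_le m N hN1) (by positivity) (by positivity)
    exact pow_le_pow_right₀ (by linarith) (Nat.sub_le _ _)
  have h2 : ((N ! : ℕ) : ℝ) ≤ (N : ℝ) ^ (l + 1) * (n ! : ℝ) := by
    have h3 : (n + (l + 1))! = n ! * (n + 1).ascFactorial (l + 1) :=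
      (Nat.factorial_mul_ascFactorial n (l + 1)).symm
    have h4 : (n + 1).ascFactorial (l + 1) ≤ (n + (l + 1)) ^ (l + 1) :=
      Nat.ascFactorial_le_pow_add n (l + 1)
    have h5 : N ! ≤ N ^ (l + 1) * n ! := by
      rw [hN, show n + 1 + l = n + (l + 1) by ring, h3, mul_comm]
      exact Nat.mul_le_mul_right _ h4
    exact_mod_cast h5
  have h3 : (N : ℝ) ≤ (l + 1) * 2 ^ n := by
    have h4 : N ≤ (l + 1) * 2 ^ n := by
      have h5 : n + 1 ≤ 2 ^ n := Nat.lt_two_pow_self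
      calc N = n + 1 + l := hN
        _ ≤ (l + 1) * (n + 1) := by nlinarith
        _ ≤ (l + 1) * 2 ^ n := Nat.mul_le_mul_left _ h5
    exact_mod_cast h4
  have hN0 : (0 : ℝ) ≤ N := Nat.cast_nonneg _
  have h4 : (N : ℝ) * ((N ! : ℕ) : ℝ) ^ m ≤
      ((l + 1) * 2 ^ n) ^ ((l + 1) * m + 1) * (n ! : ℝ) ^ m := by
    calc (N : ℝ) * ((N ! : ℕ) : ℝ) ^ m ≤ N * ((N : ℝ) ^ (l + 1) * (n ! : ℝ)) ^ m := by
          refine mul_le_mul_of_nonneg_left ?_ hN0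
          exact pow_le_pow_left₀ (by positivity) h2 m
      _ = (N : ℝ) ^ ((l + 1) * m + 1) * (n ! : ℝ) ^ m := by
          rw [mul_pow, ← pow_mul, pow_succ]; ring
      _ ≤ _ := by
          refine mul_le_mul_of_nonneg_right ?_ (by positivity)
          exact pow_le_pow_left₀ hN0 h3 _
  calc QB m K N ≤ (2 * (K : ℝ)) ^ ((m + 1) * N) *
      (((m + 1 : ℝ) ^ ((m + 1) * N)) * N * ((N ! : ℕ) : ℝ) ^ m) := h1
    _ = ((2 * (K : ℝ)) ^ ((m + 1) * N) * (m + 1 : ℝ) ^ ((m + 1) * N)) *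
        ((N : ℝ) * ((N ! : ℕ) : ℝ) ^ m) := by ring
    _ ≤ ((2 * (K : ℝ)) ^ ((m + 1) * N) * (m + 1 : ℝ) ^ ((m + 1) * N)) *
        (((l + 1) * 2 ^ n) ^ ((l + 1) * m + 1) * (n ! : ℝ) ^ m) :=
        mul_le_mul_of_nonneg_left h4 (by positivity)
    _ = _ := by
        rw [← mul_pow, mul_pow _ _ ((l + 1) * m + 1), mul_pow _ _ n, pow_mul _ (m + 1) N,
          show N = (l + 1) + n by omega, pow_add]
        rw [← pow_mul 2 n, ← pow_mul 2 _ n, mul_comm n]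
        ring

/-- **Measure of linear independence** of powers of `e`, with the optimal exponent. -/
theorem e_meas (m : ℕ) (k : Fin (m + 1) → ℤ) (hinj : Function.Injective k) (hk0 : k 0 = 0)
    (h0 : ∀ i, 0 ≤ k i) (η : ℝ) (hη : 0 < η) :
    ∃ c : ℝ, 0 < c ∧ Meas (fun i => Real.exp (k i)) (m + η) c := by
  obtain ⟨K, hK1, hK⟩ : ∃ K : ℕ, 1 ≤ K ∧ ∀ i, k i ≤ K := by
    refine ⟨1 + ∑ i, (k i).toNat, by omega, fun i => ?_⟩
    have h1 : (k i).toNat ≤ ∑ i, (k i).toNat :=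
      Finset.single_le_sum (f := fun i => (k i).toNat) (fun _ _ => Nat.zero_le _)
        (Finset.mem_univ i)
    have h2 := Int.self_le_toNat (k i)
    have h3 : ((k i).toNat : ℤ) ≤ ((∑ i, (k i).toNat : ℕ) : ℤ) := by exact_mod_cast h1
    push_cast at h3 ⊢
    linarith
  obtain ⟨l, hlK, hl⟩ := Nat.exists_infinite_primes (K + 1)
  have hl1 : 1 ≤ l := hl.one_lt.le
  have hKR : (1 : ℝ) ≤ K := by exact_mod_cast hK1
  have hK0 : (0 : ℝ) < K := by linarith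
  obtain ⟨b0, hb0⟩ : ∃ b0 : ℝ, b0 = 2 * (m + 1) * Real.exp K * (K : ℝ) ^ (m + 1) := ⟨_, rfl⟩
  obtain ⟨κ, hκ⟩ : ∃ κ : ℝ, κ = (K : ℝ) ^ (m + 1) := ⟨_, rfl⟩
  have hb00 : 0 < b0 := by rw [hb0]; positivity
  have hκ0 : 0 < κ := by rw [hκ]; positivity
  obtain ⟨c1, hc1⟩ : ∃ c1 : ℝ, c1 = ((2 * (K : ℝ) * (m + 1)) ^ (m + 1)) ^ (l + 1) *
      ((l + 1 : ℝ) ^ ((l + 1) * m + 1)) := ⟨_, rfl⟩
  obtain ⟨A1, hA1⟩ : ∃ A1 : ℝ, A1 = ((2 * (K : ℝ) * (m + 1)) ^ (m + 1)) * 2 ^ ((l + 1) * m + 1) :=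
    ⟨_, rfl⟩
  have hc10 : 0 < c1 := by rw [hc1]; positivity
  have hA10 : 0 < A1 := by rw [hA1]; positivity
  obtain ⟨C3, hC30, hC3⟩ := fact_pow (A1 * κ ^ m * κ ^ η) η (by positivity) hη
  -- the thresholds are unbounded
  have hunb : ∀ H : ℝ, ∃ M : ℕ, 1 ≤ M ∧ H ≤ RR m K (l * M) := by
    intro H
    have h1 := (FloorSemiring.tendsto_pow_div_factorial_atTop κ).const_mul (b0 * (|H| + 1))
    rw [mul_zero] at h1
    obtain ⟨n0, hn0⟩ := (h1.eventually (gt_mem_nhds one_pos)).exists_forall_of_atTop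
    refine ⟨n0 + 1, by omega, ?_⟩
    obtain ⟨n, hn⟩ : ∃ n, l * (n0 + 1) = n + 1 := ⟨l * (n0 + 1) - 1, by
      have : 1 ≤ l * (n0 + 1) := Nat.mul_pos (by omega) (by omega)
      omega⟩
    have hnn : n0 ≤ n := by nlinarith
    have h2 := hn0 n hnn
    have hf : (0 : ℝ) < (n ! : ℝ) := by exact_mod_cast Nat.factorial_pos _
    have h3 := RR_ge m K n hK1
    rw [hn]
    rw [← hb0, ← hκ] at h3
    rw [← mul_div_assoc, div_lt_one hf] at h2
    have h4 : b0 * κ ^ n * (|H| + 1) ≤ b0 * κ ^ n * RR m K (n + 1) := by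
      linarith
    have h5 := le_of_mul_le_mul_left h4 (by positivity)
    linarith [le_abs_self H]
  -- the main bound
  have hmain : ∀ M : ℕ, 1 ≤ M → QB m K (l * (M + 1)) ≤
      c1 * (b0 ^ m * (C3 * b0 ^ η)) * RR m K (l * M) ^ ((m : ℝ) + η) := by
    intro M hM
    obtain ⟨n, hn⟩ : ∃ n, l * M = n + 1 := ⟨l * M - 1, by
      have : 1 ≤ l * M := Nat.mul_pos (by omega) (by omega)
      omega⟩
    rw [show l * (M + 1) = n + 1 + l by rw [mul_add, hn, mul_one], hn]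
    obtain ⟨R, hR⟩ : ∃ R, R = RR m K (n + 1) := ⟨_, rfl⟩
    have hR0 : 0 < R := by rw [hR]; exact RR_pos m K _ hK1
    have h1 := QB_le m K n l hK1
    rw [← hc1, ← hA1] at h1
    have h2 := RR_ge m K n hK1
    rw [← hb0, ← hκ, ← hR] at h2
    rw [← hR]
    have hf : (0 : ℝ) < (n ! : ℝ) := by exact_mod_cast Nat.factorial_pos _
    have h3 : (n ! : ℝ) ^ m ≤ R ^ m * (b0 ^ m * (κ ^ m) ^ n) := by
      calc (n ! : ℝ) ^ m ≤ (R * (b0 * κ ^ n)) ^ m := pow_le_pow_left₀ hf.le h2 m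
        _ = _ := by rw [mul_pow, mul_pow, ← pow_mul, ← pow_mul, mul_comm n m]
    have h4 : (A1 * κ ^ m * κ ^ η) ^ n ≤ C3 * (R ^ η * (b0 ^ η * (κ ^ η) ^ n)) := by
      refine (hC3 n).trans (mul_le_mul_of_nonneg_left ?_ hC30.le)
      calc (n ! : ℝ) ^ η ≤ (R * (b0 * κ ^ n)) ^ η := Real.rpow_le_rpow hf.le h2 hη.le
        _ = R ^ η * (b0 ^ η * (κ ^ η) ^ n) := by
            rw [Real.mul_rpow hR0.le (by positivity), Real.mul_rpow hb00.le (by positivity)]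
            congr 2
            rw [← Real.rpow_natCast κ n, ← Real.rpow_mul hκ0.le, ← Real.rpow_natCast (κ ^ η) n,
              ← Real.rpow_mul hκ0.le, mul_comm]
    rw [mul_pow _ (κ ^ η) n] at h4
    have hκn : 0 < (κ ^ η) ^ n := by positivity
    have h5 : (A1 * κ ^ m) ^ n ≤ C3 * (R ^ η * b0 ^ η) := by
      have : (A1 * κ ^ m) ^ n * (κ ^ η) ^ n ≤ (C3 * (R ^ η * b0 ^ η)) * (κ ^ η) ^ n := by
        linarith
      exact le_of_mul_le_mul_right this hκn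
    have hRm : R ^ ((m : ℝ) + η) = R ^ m * R ^ η := by
      rw [Real.rpow_add hR0, Real.rpow_natCast]
    rw [hRm]
    calc QB m K (n + 1 + l) ≤ c1 * A1 ^ n * (n ! : ℝ) ^ m := h1
      _ ≤ c1 * A1 ^ n * (R ^ m * (b0 ^ m * (κ ^ m) ^ n)) :=
          mul_le_mul_of_nonneg_left h3 (by positivity)
      _ = c1 * b0 ^ m * R ^ m * (A1 * κ ^ m) ^ n := by rw [mul_pow]; ring
      _ ≤ c1 * b0 ^ m * R ^ m * (C3 * (R ^ η * b0 ^ η)) :=
          mul_le_mul_of_nonneg_left h5 (by positivity)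
      _ = _ := by ring
  obtain ⟨C1, hC1⟩ : ∃ C1 : ℝ, C1 = c1 * (b0 ^ m * (C3 * b0 ^ η)) := ⟨_, rfl⟩
  have hC10 : 0 < C1 := by rw [hC1]; positivity
  have hQ0 : ∀ N, 0 ≤ QB m K N := fun N => by unfold QB; positivity
  obtain ⟨C, hC⟩ : ∃ C : ℝ, C = 2 * (C1 + QB m K l) := ⟨_, rfl⟩
  have hC0 : 0 < C := by rw [hC]; linarith [hQ0 l]
  refine ⟨1 / C, by positivity, ?_⟩
  intro a ha H hH haH
  classical
  obtain ⟨M, ⟨hM1, hMR⟩, hmin⟩ : ∃ M : ℕ, (1 ≤ M ∧ H ≤ RR m K (l * M)) ∧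
      ∀ M' < M, ¬ (1 ≤ M' ∧ H ≤ RR m K (l * M')) :=
    ⟨Nat.find (hunb H), Nat.find_spec (hunb H), fun M' h => Nat.find_min (hunb H) h⟩
  have hH0 : (0 : ℝ) < H := by linarith
  have hHp : (1 : ℝ) ≤ H ^ ((m : ℝ) + η) := Real.one_le_rpow hH (by positivity)
  have hQM : QB m K (l * M) ≤ (C1 + QB m K l) * H ^ ((m : ℝ) + η) := by
    rcases Nat.lt_or_ge M 2 with h2 | h2
    · have : M = 1 := by omega
      rw [this, mul_one]
      have h3 : QB m K l ≤ QB m K l * H ^ ((m : ℝ) + η) := le_mul_of_one_le_right (hQ0 l) hHp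
      have h4 : 0 ≤ C1 * H ^ ((m : ℝ) + η) := by positivity
      linarith
    · obtain ⟨M', rfl⟩ : ∃ M', M = M' + 1 := ⟨M - 1, by omega⟩
      have h3 := hmin M' (by omega)
      have h4 : RR m K (l * M') < H := by
        by_contra hcon
        exact h3 ⟨by omega, not_lt.1 hcon⟩
      have h5 := hmain M' (by omega)
      rw [← hC1] at h5
      have h6 : RR m K (l * M') ^ ((m : ℝ) + η) ≤ H ^ ((m : ℝ) + η) :=
        Real.rpow_le_rpow (RR_pos m K _ hK1).le h4.le (by positivity)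
      have h7 : C1 * RR m K (l * M') ^ ((m : ℝ) + η) ≤ C1 * H ^ ((m : ℝ) + η) :=
        mul_le_mul_of_nonneg_left h6 hC10.le
      have h8 : 0 ≤ QB m K l * H ^ ((m : ℝ) + η) := mul_nonneg (hQ0 l) (by positivity)
      linarith
  have hN1 : 1 ≤ l * M := Nat.mul_pos (by omega) (by omega)
  have hrow := row_ineq m (l * M) K l hN1 hK1 hl (by omega) (Dvd.intro _ rfl) k hinj hk0 h0 hK a ha
    H haH
  have hf : (0 : ℝ) < ((l * M - 1)! : ℝ) := by exact_mod_cast Nat.factorial_pos _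
  have hE : (m + 1) * H * (Real.exp K * (K : ℝ) ^ ((m + 1) * (l * M) - 1) / ((l * M - 1)! : ℝ)) ≤
      1 / 2 := by
    unfold RR at hMR
    rw [le_div_iff₀ (by positivity)] at hMR
    rw [← mul_div_assoc, div_le_iff₀ hf]
    linarith
  have hrow2 : 1 / 2 ≤ QB m K (l * M) * |∑ i, (a i : ℝ) * Real.exp (k i)| := by
    unfold QB
    linarith
  rw [div_le_iff₀ hC0]
  have h9 := mul_le_mul_of_nonneg_right hQM (abs_nonneg (∑ i, (a i : ℝ) * Real.exp (k i)))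
  rw [hC]
  linarith

/-- **Measure of transcendence** of `e`, with the optimal exponent. -/
theorem e_measP (r : ℕ) (η : ℝ) (hη : 0 < η) :
    ∃ c : ℝ, 0 < c ∧ MeasP (Real.exp 1) r (r + η) c := by
  obtain ⟨c, hc, h⟩ := e_meas r (fun i => ((i : ℕ) : ℤ)) (fun i j hij => by
    apply Fin.ext
    simpa using hij) (by simp) (fun i => by positivity) η hη
  refine ⟨c, hc, fun P hP hPd H hH hPH => ?_⟩
  have h1 := h (fun j => P.coeff j) (by
    intro h0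
    apply hP
    ext j
    by_cases hj : j < r + 1
    · exact congrFun h0 ⟨j, hj⟩
    · rw [coeff_eq_zero_of_natDegree_lt (by omega), coeff_zero]) H hH (fun j => hPH j)
  have h2 : aeval (Real.exp 1) P = ∑ i : Fin (r + 1), (P.coeff i : ℝ) *
      Real.exp (((i : ℕ) : ℤ) : ℝ) := by
    rw [aeval_eq_sum_range' (show P.natDegree < r + 1 by omega), Finset.sum_range]
    refine Finset.sum_congr rfl fun i _ => ?_
    rw [zsmul_eq_mul, ← Real.exp_nat_mul]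
    simp
  rw [h2]
  exact h1

end Pool.Agent.W472.AC
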