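import Pool.Agent.W472.AC.Count
import Pool.Agent.W472.AC.EMeas2

/-!
# Linear relations between the digits of several numbers
-/

set_option autoImplicit false

namespace Pool.Agent.W472.AC

open Finset Polynomial Module Filter

/-- measure of linear independence of `1, x_1, …, x_m` -/
def MeasL {m : ℕ} (x : Fin m → ℝ) (w c : ℝ) : Prop :=
  ∀ (u : ℤ) (v : Fin m → ℤ), (u ≠ 0 ∨ v ≠ 0) → ∀ H : ℝ, 1 ≤ H → |(u : ℝ)| ≤ H →
    (∀ s, |(v s : ℝ)| ≤ H) → c ≤ H ^ w * |u + ∑ s, (v s : ℝ) * x s|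

theorem measL_fract {m : ℕ} (x : Fin m → ℝ) (w c : ℝ) (hc : 0 < c) (hx : MeasL x w c) :
    ∃ c' : ℝ, 0 < c' ∧
      Meas (Fin.cons 1 (fun s => Int.fract (x s)) : Fin (m + 1) → ℝ) w c' := by
  set S : ℝ := 1 + ∑ s, |(⌊x s⌋ : ℝ)| with hS
  have hSs : 0 ≤ ∑ s, |(⌊x s⌋ : ℝ)| := Finset.sum_nonneg fun s _ => abs_nonneg _
  have hS0 : 0 < S := by linarith
  refine ⟨c / S ^ w, by positivity, ?_⟩
  intro a ha H hH haH
  have h1 := hx (a 0 - ∑ s : Fin m, a s.succ * ⌊x s⌋) (fun s => a s.succ) (by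
    by_contra hcon
    push Not at hcon
    obtain ⟨h0, h1⟩ := hcon
    apply ha
    funext j
    refine Fin.cases ?_ (fun s => ?_) j
    · have h2 : ∀ s : Fin m, a s.succ = 0 := fun s => congrFun h1 s
      simp only [h2, zero_mul, Finset.sum_const_zero, sub_zero] at h0
      exact h0
    · exact congrFun h1 s) (H * S) (by nlinarith) (by
      push_cast
      calc |(a 0 : ℝ) - ∑ s : Fin m, (a s.succ : ℝ) * (⌊x s⌋ : ℝ)|
          ≤ |(a 0 : ℝ)| + |∑ s : Fin m, (a s.succ : ℝ) * (⌊x s⌋ : ℝ)| := abs_sub _ _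
        _ ≤ H + ∑ s : Fin m, H * |(⌊x s⌋ : ℝ)| := by
            refine add_le_add (haH 0) ((Finset.abs_sum_le_sum_abs _ _).trans ?_)
            refine Finset.sum_le_sum fun s _ => ?_
            rw [abs_mul]
            exact mul_le_mul_of_nonneg_right (haH _) (abs_nonneg _)
        _ = H * S := by rw [← Finset.mul_sum, hS]; ring) (fun s => by
      refine (haH _).trans ?_
      nlinarith)
  have h2 : (((a 0 - ∑ s : Fin m, a s.succ * ⌊x s⌋ : ℤ) : ℝ) + ∑ s : Fin m, (a s.succ : ℝ) * x s) =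
      ∑ j, (a j : ℝ) * (Fin.cons 1 (fun s => Int.fract (x s)) : Fin (m + 1) → ℝ) j := by
    rw [Fin.sum_univ_succ]
    simp only [Fin.cons_zero, Fin.cons_succ, Int.fract]
    push_cast
    simp only [mul_sub, Finset.sum_sub_distrib]
    ring
  rw [h2, Real.mul_rpow (by linarith) hS0.le] at h1
  rw [div_le_iff₀ (by positivity)]
  linarith

/-- a linear relation between `1` and the digit polynomials of `x_1, …, x_m`, to order `L + 1`,
with coefficients of degree at most `k` -/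
def LinRelation (b : ℕ) {m : ℕ} (x : Fin m → ℝ) (L k : ℕ) : Prop :=
  ∃ (g : ℚ[X]) (h : Fin m → ℚ[X]), (g ≠ 0 ∨ h ≠ 0) ∧ g.natDegree ≤ k ∧
    (∀ s, (h s).natDegree ≤ k) ∧ X ^ (L + 1) ∣ g + ∑ s, h s * digitPoly b (x s) L

/-- the joint linear complexity of the first `L` digits of `x_1, …, x_m` -/
noncomputable def linComplexity (b : ℕ) {m : ℕ} (x : Fin m → ℝ) (L : ℕ) : ℕ :=
  sInf {k | LinRelation b x L k}

theorem linRelation_of_lt (b : ℕ) {m : ℕ} (x : Fin m → ℝ) (L k : ℕ)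
    (h : L + 1 < (m + 1) * (k + 1)) : LinRelation b x L k := by
  obtain ⟨g, hg0, hgd, hgX⟩ := exists_rel m k (L + 1)
    (Fin.cons 1 (fun s => digitPoly b (x s) L) : Fin (m + 1) → ℚ[X]) h
  refine ⟨g 0, fun s => g s.succ, ?_, hgd 0, fun s => hgd _, ?_⟩
  · by_contra hcon
    push Not at hcon
    apply hg0
    funext j
    refine Fin.cases ?_ (fun s => ?_) j
    · exact hcon.1
    · exact congrFun hcon.2 s
  · rw [Fin.sum_univ_succ] at hgX
    simpa using hgX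

theorem linComplexity_le (b : ℕ) {m : ℕ} (x : Fin m → ℝ) (L : ℕ) :
    (linComplexity b x L : ℝ) ≤ L / (m + 1) + 1 := by
  have h1 : L + 1 < (m + 1) * ((L + 1) / (m + 1) + 1) := Nat.lt_mul_div_succ _ (by omega)
  have h2 : linComplexity b x L ≤ (L + 1) / (m + 1) :=
    Nat.sInf_le (linRelation_of_lt b x L _ h1)
  have h3 : (((L + 1) / (m + 1) : ℕ) : ℝ) ≤ ((L : ℝ) + 1) / (m + 1) := by
    have := @Nat.cast_div_le ℝ _ _ _ (L + 1) (m + 1)
    push_cast at this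
    exact this
  have h4 : ((L : ℝ) + 1) / (m + 1) ≤ L / (m + 1) + 1 := by
    rw [add_div]
    have : 1 / ((m : ℝ) + 1) ≤ 1 := by
      rw [div_le_one (by positivity)]
      linarith [(Nat.cast_nonneg m : (0 : ℝ) ≤ m)]
    linarith
  have h5 : (linComplexity b x L : ℝ) ≤ (((L + 1) / (m + 1) : ℕ) : ℝ) := by exact_mod_cast h2
  linarith

lemma ev_one (z : ℝ) : ev z 1 = 1 := by unfold ev; simp

lemma DZ_coeff_abs (x : ℝ) (b : ℕ) (hb : 1 ≤ b) (L r : ℕ) (hr : 1 ≤ r) (i : ℕ) :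
    |(DZ b x L).coeff i| ≤ (((b * (L + 1)) ^ r : ℕ) : ℤ) := by
  have := DZ_pow_coeff x b hb L r 1 hr i
  rwa [pow_one] at this

/-- **No linear relation of small degree.** -/
theorem lin_lower {m : ℕ} (x : Fin m → ℝ) (w c : ℝ) (hw : 0 ≤ w) (hc : 0 < c)
    (hx : MeasL x w c) (θ : ℝ) (hθ0 : 0 ≤ θ) (hθ : θ * (1 + w) < 1) :
    ∀ᶠ L : ℕ in atTop, ∀ b : ℕ, 2 ≤ b → ∀ k : ℕ, (k : ℝ) ≤ θ * L → ∀ (g : ℚ[X])
      (h : Fin m → ℚ[X]), g.natDegree ≤ k → (∀ s, (h s).natDegree ≤ k) →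
      X ^ (L + 1) ∣ g + ∑ s, h s * digitPoly b (x s) L → g = 0 ∧ h = 0 := by
  obtain ⟨c', hc', hM⟩ := measL_fract x w c hc hx
  filter_upwards [lower m _ w c' hw hc' hM θ hθ0 hθ] with L hL b hb k hk g h hgk hhk hrel
  have hb1 : 1 ≤ b := by omega
  have hBpos : 1 ≤ (b * (L + 1)) ^ m := Nat.one_le_pow _ _ (Nat.mul_pos (by omega) (by omega))
  have h1 := hL b hb (Fin.cons 1 (fun s => DZ b (x s) L))
    (fun j i => by
      refine Fin.cases ?_ (fun s => ?_) j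
      · rw [Fin.cons_zero, coeff_one]
        split_ifs
        · rw [abs_one]; exact_mod_cast hBpos
        · rw [abs_zero]; positivity
      · rw [Fin.cons_succ]
        exact DZ_coeff_abs (x s) b hb1 L m (by have := s.2; omega) i)
    (fun j => by
      refine Fin.cases ?_ (fun s => ?_) j
      · rw [Fin.cons_zero, Fin.cons_zero, ev_one, sub_self, abs_zero]
        positivity
      · rw [Fin.cons_succ, Fin.cons_succ]
        obtain ⟨h2, h3⟩ := ev_DZ_close (x s) b hb1 L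
        rw [abs_of_nonneg h2]
        refine h3.trans (le_mul_of_one_le_left (by positivity) ?_)
        exact_mod_cast hBpos)
    k hk (Fin.cons g h) (fun j => by
      refine Fin.cases ?_ (fun s => ?_) j
      · exact hgk
      · exact hhk s) (by
      rw [Fin.sum_univ_succ]
      simp only [Fin.cons_zero, Fin.cons_succ, Polynomial.map_one, mul_one, ← digitPoly_eq]
      exact hrel)
  exact ⟨congrFun h1 0, funext fun s => congrFun h1 s.succ⟩

theorem lin_transfer {m : ℕ} (x : Fin m → ℝ) (w : ℝ) (hw : 0 ≤ w)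
    (hx : ∀ η : ℝ, 0 < η → ∃ c : ℝ, 0 < c ∧ MeasL x (w + η) c) (ε : ℝ) (hε : 0 < ε) :
    ∃ L₀ : ℕ, ∀ L : ℕ, L₀ ≤ L → ∀ b : ℕ, 2 ≤ b →
      (1 / (w + 1) - ε) * L < linComplexity b x L := by
  obtain ⟨θ, hθ⟩ : ∃ θ : ℝ, θ = max 0 (1 / (w + 1) - ε) := ⟨_, rfl⟩
  have hθ0 : 0 ≤ θ := by rw [hθ]; exact le_max_left _ _
  have hθ1 : θ * (1 + w) < 1 := by
    rw [hθ]
    rcases max_cases 0 (1 / (w + 1) - ε) with ⟨h1, _⟩ | ⟨h1, _⟩
    · rw [h1]; norm_num
    · rw [h1, sub_mul]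
      have : 1 / (w + 1) * (1 + w) = 1 := by field_simp; ring
      rw [this]
      have : 0 < ε * (1 + w) := by positivity
      linarith
  obtain ⟨η, hη0, hη⟩ : ∃ η : ℝ, 0 < η ∧ θ * (1 + (w + η)) < 1 := by
    refine ⟨(1 - θ * (1 + w)) / (2 * (θ + 1)), div_pos (by linarith) (by linarith), ?_⟩
    have e : θ * (1 + (w + (1 - θ * (1 + w)) / (2 * (θ + 1)))) =
        θ * (1 + w) + (1 - θ * (1 + w)) * (θ / (2 * (θ + 1))) := by ring
    rw [e]
    have h2 : θ / (2 * (θ + 1)) < 1 := by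
      rw [div_lt_one (by linarith)]; linarith
    nlinarith
  obtain ⟨c, hc, hM⟩ := hx η hη0
  have h1 := lin_lower x (w + η) c (by linarith) hc hM θ hθ0 hη
  rw [eventually_atTop] at h1
  obtain ⟨L₀, hL₀⟩ := h1
  refine ⟨L₀, fun L hL b hb => ?_⟩
  have hne : {k | LinRelation b x L k}.Nonempty :=
    ⟨(L + 1) / (m + 1), linRelation_of_lt b x L _ (Nat.lt_mul_div_succ _ (by omega))⟩
  have hmem : LinRelation b x L (linComplexity b x L) := Nat.sInf_mem hne
  obtain ⟨g, h, hgh, hgk, hhk, hX⟩ := hmem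
  have h2 : θ * L < linComplexity b x L := by
    by_contra hcon
    obtain ⟨h3, h4⟩ := hL₀ L hL b hb _ (not_lt.1 hcon) g h hgk hhk hX
    rcases hgh with h5 | h5
    · exact h5 h3
    · exact h5 h4
  have h3 : (1 / (w + 1) - ε) * L ≤ θ * L := by
    refine mul_le_mul_of_nonneg_right ?_ (Nat.cast_nonneg _)
    rw [hθ]; exact le_max_right _ _
  linarith

/-- two-sided form -/
theorem lin_two_sided {m : ℕ} (x : Fin m → ℝ)
    (hx : ∀ η : ℝ, 0 < η → ∃ c : ℝ, 0 < c ∧ MeasL x (m + η) c) (ε : ℝ) (hε : 0 < ε) :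
    ∃ L₀ : ℕ, ∀ L : ℕ, L₀ ≤ L → ∀ b : ℕ, 2 ≤ b →
      (1 / ((m : ℝ) + 1) - ε) * L < linComplexity b x L ∧
        (linComplexity b x L : ℝ) < (1 / ((m : ℝ) + 1) + ε) * L := by
  obtain ⟨L₀, hL₀⟩ := lin_transfer x m (Nat.cast_nonneg m) hx ε hε
  obtain ⟨L₁, hL₁⟩ := exists_nat_gt (1 / ε)
  refine ⟨max L₀ L₁, fun L hL b hb => ⟨hL₀ L (le_trans (le_max_left _ _) hL) b hb, ?_⟩⟩
  have h1 := linComplexity_le b x L
  have h2 : (L₁ : ℝ) ≤ L := by exact_mod_cast le_trans (le_max_right _ _) hL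
  have h3 : 1 < ε * L := by
    have : 1 / ε < L := lt_of_lt_of_le hL₁ h2
    rw [div_lt_iff₀ hε] at this
    linarith
  calc (linComplexity b x L : ℝ) ≤ L / (m + 1) + 1 := h1
    _ < L / (m + 1) + ε * L := by linarith
    _ = (1 / ((m : ℝ) + 1) + ε) * L := by ring

/-- measure of linear independence of `1, e^{k_1}, …, e^{k_m}` -/
theorem e_measL {m : ℕ} (k : Fin m → ℕ) (hinj : Function.Injective k) (hk : ∀ s, 1 ≤ k s)
    (η : ℝ) (hη : 0 < η) :
    ∃ c : ℝ, 0 < c ∧ MeasL (fun s => Real.exp (k s)) (m + η) c := by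
  obtain ⟨c, hc, h⟩ := e_meas m (Fin.cons 0 (fun s => (k s : ℤ))) (by
    rw [Fin.cons_injective_iff]
    refine ⟨?_, fun s s' hs => hinj (Int.ofNat_inj.1 hs)⟩
    rintro ⟨s, hs⟩
    have h1 := hk s
    have h2 : (k s : ℤ) = 0 := hs
    omega) (Fin.cons_zero _ _) (fun j => by
      refine Fin.cases ?_ (fun s => ?_) j
      · rw [Fin.cons_zero]
      · rw [Fin.cons_succ]; positivity) η hη
  refine ⟨c, hc, fun u v huv H hH hu hv => ?_⟩
  have h1 := h (Fin.cons u v) (by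
    intro h0
    rcases huv with h1 | h1
    · exact h1 (congrFun h0 0)
    · exact h1 (funext fun s => congrFun h0 s.succ)) H hH (fun j => by
      refine Fin.cases ?_ (fun s => ?_) j
      · exact hu
      · exact hv s)
  rw [Fin.sum_univ_succ] at h1
  simpa using h1

end Pool.Agent.W472.AC
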