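import Pool.Agent.W472.AC.Mono
import Pool.Agent.W472.AC.Joint

/-!
# The digits of one algebraic number
-/

set_option autoImplicit false

namespace Pool.Agent.W472.AC

open Finset Polynomial Module Filter IntermediateField

/-- Liouville's inequality for the polynomials of degree smaller than the degree of `α` -/
theorem alg_measP (α : ℝ) (r : ℕ) (hα : (minpoly ℚ α).natDegree = r + 1) (η : ℝ) (hη : 0 < η) :
    ∃ c : ℝ, 0 < c ∧ MeasP α r (r + η) c := by
  have hint : IsIntegral ℚ α := by
    by_contra h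
    rw [minpoly.eq_zero h, natDegree_zero] at hα
    omega
  have : FiniteDimensional ℚ ℚ⟮α⟯ := adjoin.finiteDimensional hint
  have hfin : finrank ℚ ℚ⟮α⟯ = r + 1 := by rw [adjoin.finrank hint, hα]
  have hli : LinearIndependent ℚ (fun j : Fin (r + 1) => α ^ (j : ℕ)) := by
    rw [← hα]; exact linearIndependent_pow α
  obtain ⟨c, hc, hM⟩ := liouville_field ℚ⟮α⟯ (fun j : Fin (r + 1) => α ^ (j : ℕ))
    (fun j => pow_mem (mem_adjoin_simple_self ℚ α) _) hli
  rw [hfin] at hM
  have e : (((r + 1 : ℕ) : ℝ) - 1) = r := by push_cast; ring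
  rw [e] at hM
  refine ⟨c, hc, fun P hP hPd H hH hPH => ?_⟩
  have h1 := hM (fun j => P.coeff j) (by
    intro h0
    apply hP
    ext j
    by_cases hj : j < r + 1
    · exact congrFun h0 ⟨j, hj⟩
    · rw [coeff_eq_zero_of_natDegree_lt (by omega), coeff_zero]) H hH (fun j => hPH j)
  have h2 : aeval α P = ∑ i : Fin (r + 1), (P.coeff i : ℝ) * α ^ (i : ℕ) := by
    rw [aeval_eq_sum_range' (show P.natDegree < r + 1 by omega), Finset.sum_range]
    refine Finset.sum_congr rfl fun i _ => ?_
    rw [zsmul_eq_mul]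
  rw [h2]
  refine h1.trans (mul_le_mul_of_nonneg_right ?_ (abs_nonneg _))
  exact Real.rpow_le_rpow_of_exponent_le hH (by linarith)

/-- linear forms in a basis of a real number field -/
theorem field_measL (K : IntermediateField ℚ ℝ) [FiniteDimensional ℚ K] {m : ℕ} (x : Fin m → ℝ)
    (hxK : ∀ s, x s ∈ K)
    (hli : LinearIndependent ℚ (Fin.cons 1 x : Fin (m + 1) → ℝ)) :
    ∃ c : ℝ, 0 < c ∧ MeasL x ((finrank ℚ K : ℝ) - 1) c := by
  obtain ⟨c, hc, hM⟩ := liouville_field K (Fin.cons 1 x : Fin (m + 1) → ℝ) (fun j => by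
    refine Fin.cases ?_ (fun s => ?_) j
    · exact one_mem K
    · exact hxK s) hli
  refine ⟨c, hc, fun u v huv H hH hu hv => ?_⟩
  have h1 := hM (Fin.cons u v) (by
    intro h0
    rcases huv with h1 | h1
    · exact h1 (congrFun h0 0)
    · exact h1 (funext fun s => congrFun h0 s.succ)) H hH (fun j => by
      refine Fin.cases ?_ (fun s => ?_) j
      · exact hu
      · exact hv s)
  rw [Fin.sum_univ_succ] at h1
  simpa using h1

end Pool.Agent.W472.AC
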