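import Pool.Agent.H393R2.Codim
import Pool.Agent.H393R2.Glue814
import Pool.Agent.W472.AC.AlgNum

/-!
# Roth's theorem
-/

set_option autoImplicit false

namespace Pool.Agent.W472.AC

open Finset Polynomial Module Filter

/-- Roth's theorem for algebraic integers, coprime fractions -/
theorem roth_seq (ξ : ℝ) (hξ : IsIntegral ℤ ξ) (η : ℝ) (hη : 0 < η) :
    ¬ ∀ K : ℕ, ∃ q : ℕ, K < q ∧ ∃ p : ℤ, IsCoprime p (q : ℤ) ∧
      (q : ℝ) ^ (1 + η) * |q * ξ - p| < 1 := by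
  intro h
  choose Q hQ P hPQ hlt using fun t : ℕ => h (t + 1)
  have hQ1 : ∀ t, (1 : ℝ) < Q t := fun t => by
    have := hQ t
    exact_mod_cast (by omega : 1 < Q t)
  have hQ0 : ∀ t, (0 : ℝ) < Q t := fun t => by linarith [hQ1 t]
  have hN0 : ∀ t, 0 < Real.log (Q t) := fun t => Real.log_pos (hQ1 t)
  refine Pool.Agent.H393R2.codim_one_core Pool.Agent.H393R2.auxPolyStmt
    Pool.Agent.H393R2.rothStmt 1 le_rfl 2 le_rfl ξ hξ 0 1 0 (by decide) (by decide) (2 + η) η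
    (by linarith) hη (fun t => Real.log (Q t)) ?_ hN0 (fun _ _ => 0) (fun _ => rfl) ?_
    (fun t => ![P t, -(Q t : ℤ)]) (fun t => ![(Q t : ℝ), (Q t : ℝ) ^ (-(1 + η))]) ?_ ?_ ?_
    (fun t _ => ![(Q t : ℤ), P t]) ?_ ?_ ?_ ?_ P (fun t => (Q t : ℤ)) hPQ ?_ ?_ ?_
  · refine Real.tendsto_log_atTop.comp (tendsto_natCast_atTop_atTop.comp ?_)
    refine tendsto_atTop_mono (fun t => ?_) tendsto_id
    have := hQ t
    simp only [id]
    omega
  · intro t l
    have := hN0 t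
    simp only [Nat.cast_zero, zero_mul]
    positivity
  · intro t l
    have := hQ0 t
    fin_cases l
    · exact this
    · exact Real.rpow_pos_of_pos this _
  · intro t l
    have h1 := hN0 t
    fin_cases l
    · show |-Real.log (Q t : ℝ)| ≤ (2 + η) * Real.log (Q t)
      rw [abs_neg, abs_of_pos h1]
      nlinarith
    · show |-Real.log ((Q t : ℝ) ^ (-(1 + η)))| ≤ (2 + η) * Real.log (Q t)
      rw [Real.log_rpow (hQ0 t), abs_of_nonneg (by nlinarith)]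
      nlinarith
  · intro t
    rw [Fin.sum_univ_two]
    show η * Real.log (Q t) ≤ -Real.log (Q t : ℝ) + -Real.log ((Q t : ℝ) ^ (-(1 + η)))
    rw [Real.log_rpow (hQ0 t)]
    linarith
  · intro t
    rw [linearIndependent_unique_iff]
    intro h0
    have h1 := congrFun h0 0
    have h2 : (Q t : ℤ) = 0 := h1
    have := hQ t
    omega
  · intro t i
    rw [Fin.sum_univ_two]
    show P t * (Q t : ℤ) + -(Q t : ℤ) * P t = 0
    ring
  · intro t i l
    fin_cases l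
    · show |(((Q t : ℤ)) : ℝ) - (if (0 : Fin 2) = 0 then 0 else _)| ≤ (Q t : ℝ)
      rw [if_pos rfl, sub_zero, Int.cast_natCast, abs_of_pos (hQ0 t)]
    · show |((P t : ℤ) : ℝ) - (if (1 : Fin 2) = 0 then 0 else ξ * ((2 : ℕ) : ℝ) ^ (0 : ℕ) *
        (((Q t : ℤ)) : ℝ))| ≤ (Q t : ℝ) ^ (-(1 + η))
      rw [if_neg (by decide), pow_zero, mul_one, Int.cast_natCast]
      have h1 := (hlt t).le
      have h2 : (0 : ℝ) < (Q t : ℝ) ^ (1 + η) := Real.rpow_pos_of_pos (hQ0 t) _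
      rw [Real.rpow_neg (hQ0 t).le, abs_sub_comm, ← one_div, le_div_iff₀ h2, mul_comm ξ,
        mul_comm (|_|)]
      exact h1
  · intro t
    show -(Q t : ℤ) ≠ 0
    have := hQ t
    omega
  · intro t
    show -(Q t : ℤ) * (2 : ℕ) ^ 0 * P t = -(P t * (2 : ℕ) ^ 0 * (Q t : ℤ))
    ring
  · intro t
    have := hQ t
    show (Q t : ℤ) ≠ 0
    omega
  · intro t
    have h1 := hN0 t
    have h2 : Real.log (Q t : ℝ) ≤ Real.log (max |((P t : ℤ) : ℝ)| |(((Q t : ℤ)) : ℝ)|) := by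
      apply Real.log_le_log (hQ0 t)
      refine le_trans ?_ (le_max_right _ _)
      rw [Int.cast_natCast, abs_of_pos (hQ0 t)]
    refine le_trans ?_ h2
    rw [div_le_iff₀ (by linarith)]
    nlinarith

/-- **Roth's theorem** for algebraic integers -/
theorem roth_int (ξ : ℝ) (hξ : IsIntegral ℤ ξ) (hirr : Irrational ξ) (η : ℝ) (hη : 0 < η) :
    ∃ c : ℝ, 0 < c ∧ ∀ q : ℕ, 1 ≤ q → ∀ p : ℤ, c ≤ (q : ℝ) ^ (1 + η) * |q * ξ - p| := by
  by_contra hcon
  push Not at hcon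
  apply roth_seq ξ hξ η hη
  intro K
  -- the distance to the nearest integer for small `q`
  have hpos : ∀ q : ℕ, 1 ≤ q → 0 < |q * ξ - round (q * ξ)| := by
    intro q hq
    rw [abs_pos, sub_ne_zero]
    have h1 : Irrational (q * ξ) := hirr.natCast_mul (by omega)
    exact h1.ne_int _
  obtain ⟨δ, hδ0, hδ⟩ : ∃ δ : ℝ, 0 < δ ∧ ∀ q : ℕ, 1 ≤ q → q ≤ K →
      δ ≤ |q * ξ - round (q * ξ)| := by
    by_cases hK : 1 ≤ K
    · obtain ⟨q0, hq0, hmin⟩ := Finset.exists_min_image (Finset.Icc 1 K)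
        (fun q : ℕ => |q * ξ - round (q * ξ)|) ⟨1, Finset.mem_Icc.2 ⟨le_rfl, hK⟩⟩
      exact ⟨_, hpos q0 (Finset.mem_Icc.1 hq0).1, fun q h1 h2 => hmin q (Finset.mem_Icc.2 ⟨h1, h2⟩)⟩
    · exact ⟨1, one_pos, fun q h1 h2 => by omega⟩
  obtain ⟨q, hq, p, hlt⟩ := hcon (min 1 δ) (lt_min one_pos hδ0)
  -- reduce the fraction
  obtain ⟨g, hg⟩ : ∃ g : ℕ, g = Int.gcd p q := ⟨_, rfl⟩
  have hg0 : 0 < g := by
    rw [hg]
    exact Int.gcd_pos_of_ne_zero_right _ (by exact_mod_cast (by omega : q ≠ 0))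
  obtain ⟨p', hp'⟩ : (g : ℤ) ∣ p := by rw [hg]; exact Int.gcd_dvd_left _ _
  obtain ⟨q', hq'⟩ : g ∣ q := by
    have : (g : ℤ) ∣ (q : ℤ) := by rw [hg]; exact Int.gcd_dvd_right _ _
    exact_mod_cast this
  have hq'1 : 1 ≤ q' := by
    rcases Nat.eq_zero_or_pos q' with h | h
    · rw [h, mul_zero] at hq'; omega
    · exact h
  have hcop : IsCoprime p' (q' : ℤ) := by
    rw [Int.isCoprime_iff_gcd_eq_one]
    have h1 : Int.gcd p q = g * Int.gcd p' q' := by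
      rw [hp', hq']
      push_cast
      rw [Int.gcd_mul_left]
      simp
    rw [← hg] at h1
    exact Nat.eq_of_mul_eq_mul_left hg0 (by rw [← h1, mul_one])
  have hgR : (1 : ℝ) ≤ g := by exact_mod_cast hg0
  have hq'R : (1 : ℝ) ≤ q' := by exact_mod_cast hq'1
  have e1 : |(q : ℝ) * ξ - p| = g * |(q' : ℝ) * ξ - p'| := by
    rw [hq', hp']
    push_cast
    rw [← abs_of_pos (by linarith : (0 : ℝ) < g), ← abs_mul, abs_of_pos (by linarith : (0 : ℝ) < g)]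
    congr 1
    ring
  have h1 : (q' : ℝ) ^ (1 + η) * |(q' : ℝ) * ξ - p'| ≤ (q : ℝ) ^ (1 + η) * |(q : ℝ) * ξ - p| := by
    rw [e1]
    have h2 : (q' : ℝ) ^ (1 + η) ≤ (q : ℝ) ^ (1 + η) := by
      apply Real.rpow_le_rpow (by linarith) _ (by linarith)
      rw [hq']
      push_cast
      nlinarith
    have h3 : |(q' : ℝ) * ξ - p'| ≤ g * |(q' : ℝ) * ξ - p'| :=
      le_mul_of_one_le_left (abs_nonneg _) hgR
    exact mul_le_mul h2 h3 (abs_nonneg _) (by positivity)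
  have h2 := h1.trans_lt hlt
  have h3 : 1 ≤ (q' : ℝ) ^ (1 + η) := Real.one_le_rpow hq'R (by linarith)
  refine ⟨q', ?_, p', hcop, h2.trans_le (min_le_left _ _)⟩
  by_contra hKq
  have h4 := hδ q' hq'1 (by omega)
  have h5 : |(q' : ℝ) * ξ - round (q' * ξ)| ≤ |(q' : ℝ) * ξ - p'| := round_le _ _
  have h6 : |(q' : ℝ) * ξ - p'| ≤ (q' : ℝ) ^ (1 + η) * |(q' : ℝ) * ξ - p'| :=
    le_mul_of_one_le_left (abs_nonneg _) h3
  have h7 := h2.trans_le (min_le_right _ _)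
  linarith

/-- **Roth's theorem** -/
theorem roth (α : ℝ) (hα : IsAlgebraic ℚ α) (hirr : Irrational α) (η : ℝ) (hη : 0 < η) :
    ∃ c : ℝ, 0 < c ∧ ∀ q : ℕ, 1 ≤ q → ∀ p : ℤ, c ≤ (q : ℝ) ^ (1 + η) * |q * α - p| := by
  have hZ : IsAlgebraic ℤ α := (IsFractionRing.isAlgebraic_iff ℤ ℚ ℝ).2 hα
  obtain ⟨D, hD0, hD⟩ := hZ.exists_integral_multiple
  have hD' : IsIntegral ℤ ((D : ℝ) * α) := by rwa [zsmul_eq_mul] at hD
  have hirr' : Irrational ((D : ℝ) * α) := hirr.intCast_mul hD0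
  obtain ⟨c, hc, h⟩ := roth_int _ hD' hirr' η hη
  have hDR : (0 : ℝ) < |(D : ℝ)| := abs_pos.2 (by exact_mod_cast hD0)
  refine ⟨c / |(D : ℝ)|, by positivity, fun q hq p => ?_⟩
  have h1 := h q hq (D * p)
  have e : |(q : ℝ) * (D * α) - ((D * p : ℤ) : ℝ)| = |(D : ℝ)| * |(q : ℝ) * α - p| := by
    rw [← abs_mul]
    congr 1
    push_cast
    ring
  rw [e] at h1
  rw [div_le_iff₀ hDR]
  linarith

/-- Roth's theorem as a measure of degree one -/
theorem roth_measP (α : ℝ) (hα : IsAlgebraic ℚ α) (hirr : Irrational α) (η : ℝ) (hη : 0 < η) :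
    ∃ c : ℝ, 0 < c ∧ MeasP α 1 ((1 : ℕ) + η) c := by
  obtain ⟨c, hc, h⟩ := roth α hα hirr η hη
  refine ⟨min 1 c, lt_min one_pos hc, fun P hP hPd H hH hPH => ?_⟩
  have h1 : aeval α P = P.coeff 0 + P.coeff 1 * α := by
    rw [aeval_eq_sum_range' (show P.natDegree < 2 by omega), Finset.sum_range_succ,
      Finset.sum_range_one]
    simp
  have hw : (0 : ℝ) ≤ ((1 : ℕ) : ℝ) + η := by positivity
  have hH0 : (0 : ℝ) < H := by linarith
  rw [h1]
  by_cases h0 : P.coeff 1 = 0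
  · have h2 : P.coeff 0 ≠ 0 := by
      intro h3
      apply hP
      ext j
      rcases j with _ | _ | j
      · exact h3
      · exact h0
      · rw [coeff_eq_zero_of_natDegree_lt (by omega), coeff_zero]
    rw [h0, Int.cast_zero, zero_mul, add_zero]
    have h3 : (1 : ℝ) ≤ |((P.coeff 0 : ℤ) : ℝ)| := by exact_mod_cast Int.one_le_abs h2
    have h4 : 1 ≤ H ^ (((1 : ℕ) : ℝ) + η) := Real.one_le_rpow hH hw
    refine (min_le_left _ _).trans ?_
    nlinarith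
  · have h2 : 1 ≤ (P.coeff 1).natAbs := Nat.one_le_iff_ne_zero.2 (Int.natAbs_ne_zero.2 h0)
    have h3 := h (P.coeff 1).natAbs h2 (-(Int.sign (P.coeff 1) * P.coeff 0))
    have e1 : (((P.coeff 1).natAbs : ℕ) : ℝ) = Int.sign (P.coeff 1) * P.coeff 1 := by
      have : ((P.coeff 1).natAbs : ℤ) = Int.sign (P.coeff 1) * P.coeff 1 := by
        rw [Int.sign_mul_self_eq_natAbs]
      rw [← Int.cast_natCast, this]
      push_cast
      ring
    have e2 : |(((P.coeff 1).natAbs : ℕ) : ℝ) * α - ((-(Int.sign (P.coeff 1) * P.coeff 0) : ℤ) : ℝ)|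
        = |(P.coeff 0 : ℝ) + P.coeff 1 * α| := by
      rw [e1]
      have : ((Int.sign (P.coeff 1) : ℤ) : ℝ) * P.coeff 1 * α -
          ((-(Int.sign (P.coeff 1) * P.coeff 0) : ℤ) : ℝ) =
          (Int.sign (P.coeff 1) : ℝ) * (P.coeff 0 + P.coeff 1 * α) := by push_cast; ring
      rw [this, abs_mul]
      have h4 : |((Int.sign (P.coeff 1) : ℤ) : ℝ)| = 1 := by
        rcases lt_or_gt_of_ne h0 with h5 | h5
        · rw [Int.sign_eq_neg_one_of_neg h5]; simp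
        · rw [Int.sign_eq_one_of_pos h5]; simp
      rw [h4, one_mul]
    rw [e2] at h3
    refine (min_le_right _ _).trans (h3.trans ?_)
    refine mul_le_mul_of_nonneg_right ?_ (abs_nonneg _)
    have h5 : (((P.coeff 1).natAbs : ℕ) : ℝ) ≤ H := by
      have : (((P.coeff 1).natAbs : ℕ) : ℝ) = |((P.coeff 1 : ℤ) : ℝ)| := by
        rw [← Int.cast_abs, Int.abs_eq_natAbs, Int.cast_natCast]
      rw [this]; exact hPH 1
    rw [Nat.cast_one]
    exact Real.rpow_le_rpow (by positivity) h5 (by linarith)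

end Pool.Agent.W472.AC
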