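import Pool.Agent.W472.AC.Eval

/-!
# Lower bound for the degree of a relation
-/

set_option autoImplicit false

namespace Pool.Agent.W472.AC

open Finset Polynomial Module Filter

lemma log_ineq2 (m p k δ L κ b : ℕ) (hb : 2 ≤ b) (w c : ℝ) (hw : 0 ≤ w) (hc : 0 < c)
    (hKL : k + δ + 1 ≤ L) (H : ℕ) (hH : H = ((m + 1) * (k + δ + 1) * (b * (L + 1)) ^ p) ^ κ)
    (h : c ≤ (2 * H * (b : ℝ) ^ (k + δ)) ^ w *
      ((b : ℝ) ^ (k + δ) * ((1 / b) ^ L * (2 * (m + 1) * H *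
        ((k + δ + 1) * (((b * (L + 1)) ^ p : ℕ) : ℝ) + (((b * (L + 1)) ^ p : ℕ) : ℝ)))))) :
    L * Real.log b ≤ (1 + w) * ((k + δ : ℕ) * Real.log b) +
      ((1 + w) * (κ * p) + p) * Real.log b +
      ((1 + w) * (κ * (p + 1)) + p + 1) * Real.log (L + 1) +
      ((1 + w) * (κ * Real.log (m + 1)) + (1 + w) * Real.log 2 + Real.log (m + 1)
        + |Real.log c|) := by
  have hbR : (2 : ℝ) ≤ b := by exact_mod_cast hb
  have hb0 : (0 : ℝ) < b := by linarith
  have hL0 : (0 : ℝ) < (L : ℝ) + 1 := by positivity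
  have hm0 : (0 : ℝ) < (m : ℝ) + 1 := by positivity
  have hH0 : 0 < H := by rw [hH]; positivity
  have hHR : (0 : ℝ) < H := by exact_mod_cast hH0
  obtain ⟨K, hK⟩ : ∃ K : ℕ, K = k + δ := ⟨_, rfl⟩
  have hKR : ((k : ℝ) + δ) = (K : ℝ) := by rw [hK]; push_cast; ring
  rw [← hK] at h hH hKL ⊢
  rw [hKR] at h
  have hK0 : (0 : ℝ) ≤ (K : ℝ) := Nat.cast_nonneg _
  have hcast : (((b * (L + 1)) ^ p : ℕ) : ℝ) = ((b : ℝ) * ((L : ℝ) + 1)) ^ p := by push_cast; ring
  rw [hcast] at h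
  have hbL : (0 : ℝ) < (b : ℝ) * ((L : ℝ) + 1) := by positivity
  have e0 : ((K : ℝ) + 1) * ((b : ℝ) * ((L : ℝ) + 1)) ^ p + ((b : ℝ) * ((L : ℝ) + 1)) ^ p =
      ((K : ℝ) + 2) * ((b : ℝ) * ((L : ℝ) + 1)) ^ p := by ring
  rw [e0] at h
  have h1 := Real.log_le_log hc h
  have hK2 : (0 : ℝ) < (K : ℝ) + 2 := by positivity
  rw [Real.log_mul (by positivity) (by positivity), Real.log_rpow (by positivity),
    Real.log_mul (by positivity) (by positivity), Real.log_mul (by positivity) (by positivity),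
    Real.log_mul (by positivity) (by positivity), Real.log_mul (by positivity) (by positivity),
    Real.log_mul (by positivity) (by positivity), Real.log_mul (by positivity) (by positivity),
    Real.log_mul (by positivity) (by positivity), Real.log_mul (by positivity) (by positivity),
    Real.log_pow, Real.log_pow, Real.log_pow,
    Real.log_mul hb0.ne' hL0.ne', Real.log_div (by norm_num) hb0.ne', Real.log_one] at h1
  have hlogH : Real.log (H : ℝ) ≤ κ * (Real.log (m + 1) + Real.log (L + 1) +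
      p * (Real.log b + Real.log (L + 1))) := by
    rw [hH]
    push_cast
    rw [Real.log_pow, Real.log_mul (by positivity) (by positivity),
      Real.log_mul (by positivity) (by positivity), Real.log_pow,
      Real.log_mul hb0.ne' hL0.ne']
    have : Real.log ((K : ℝ) + 1) ≤ Real.log ((L : ℝ) + 1) := by
      apply Real.log_le_log (by positivity)
      have : ((K + 1 : ℕ) : ℝ) ≤ (L : ℝ) := by exact_mod_cast hKL
      push_cast at this
      linarith
    have hκ0 : (0 : ℝ) ≤ κ := Nat.cast_nonneg _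
    gcongr
  have hlogK : Real.log ((K : ℝ) + 2) ≤ Real.log ((L : ℝ) + 1) := by
    apply Real.log_le_log (by positivity)
    have : ((K + 1 : ℕ) : ℝ) ≤ (L : ℝ) := by exact_mod_cast hKL
    push_cast at this
    linarith
  have hc1 : -|Real.log c| ≤ Real.log c := neg_abs_le _
  have hw1 : (1 + w) * Real.log (H : ℝ) ≤ (1 + w) * (κ * (Real.log (m + 1) + Real.log (L + 1) +
      p * (Real.log b + Real.log (L + 1)))) := mul_le_mul_of_nonneg_left hlogH (by linarith)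
  have e1 : (1 + w) * (κ * (Real.log ((m : ℝ) + 1) + Real.log (L + 1) +
      p * (Real.log b + Real.log (L + 1)))) = (1 + w) * (κ * p) * Real.log b +
      (1 + w) * (κ * (p + 1)) * Real.log (L + 1) + (1 + w) * (κ * Real.log (m + 1)) := by ring
  rw [e1] at hw1
  linarith

/-- **Lower bound.** -/
theorem lower2 (m p : ℕ) (y : Fin (m + 1) → ℝ) (w c : ℝ) (hw : 0 ≤ w) (hc : 0 < c)
    (hy : Meas y w c) (θ : ℝ) (hθ0 : 0 ≤ θ) (hθ : θ * (1 + w) < 1) :
    ∀ᶠ L : ℕ in atTop, ∀ b : ℕ, 2 ≤ b → ∀ G : Fin (m + 1) → ℤ[X],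
      (∀ j i, |(G j).coeff i| ≤ (((b * (L + 1)) ^ p : ℕ) : ℤ)) →
      (∀ j, |y j - ev (1 / b) (G j)| ≤ (((b * (L + 1)) ^ p : ℕ) : ℝ) * (1 / b) ^ L) →
      ∀ k : ℕ, (k : ℝ) ≤ θ * L → ∀ h : Fin (m + 1) → ℚ[X], (∀ j, (h j).natDegree ≤ k) →
      X ^ (L + 1) ∣ ∑ j, h j * (G j).map (Int.castRingHom ℚ) → h = 0 := by
  obtain ⟨u, hu⟩ : ∃ u : ℝ, u = θ * (1 + w) := ⟨_, rfl⟩
  have hu0 : 0 ≤ u := by rw [hu]; positivity
  rw [← hu] at hθ
  obtain ⟨q, hq⟩ := exists_nat_gt (u * (m + 1) / (1 - u))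
  have hq0 : (0 : ℝ) < q := lt_of_le_of_lt (div_nonneg (by positivity) (by linarith)) hq
  have hq1 : 0 < q := by exact_mod_cast hq0
  obtain ⟨ξ, hξ⟩ : ∃ ξ : ℝ, ξ = 1 - u * (1 + (m + 1) / q) := ⟨_, rfl⟩
  have hξ0 : 0 < ξ := by
    rw [div_lt_iff₀ (by linarith)] at hq
    have h1 : u * (m + 1) / q < 1 - u := by
      rw [div_lt_iff₀ hq0]; linarith
    have e : u * (1 + ((m : ℝ) + 1) / q) = u + u * (m + 1) / q := by ring
    rw [hξ, e]; linarith
  set κ : ℕ := q + (m + 1) with hκ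
  obtain ⟨a1, ha1⟩ : ∃ a1 : ℝ, a1 = (1 + w) * (κ * p) + p := ⟨_, rfl⟩
  obtain ⟨a2, ha2⟩ : ∃ a2 : ℝ, a2 = (1 + w) * (κ * (p + 1)) + p + 1 := ⟨_, rfl⟩
  obtain ⟨a3, ha3⟩ : ∃ a3 : ℝ, a3 = (1 + w) * (κ * Real.log (m + 1)) + (1 + w) * Real.log 2
    + Real.log (m + 1) + |Real.log c| := ⟨_, rfl⟩
  have hlm : 0 ≤ Real.log ((m : ℝ) + 1) := Real.log_nonneg (by linarith [(Nat.cast_nonneg m : (0 : ℝ) ≤ m)])
  have ha10 : 0 ≤ a1 := by rw [ha1]; positivity
  have ha20 : 0 < a2 := by rw [ha2]; positivity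
  have ha30 : 0 ≤ a3 := by rw [ha3]; positivity
  have hev : ∀ᶠ L : ℕ in atTop, a1 + 2 * (a2 * Real.log (L + 1) + a3) + 1 < ξ * L := by
    have h1 := (Real.isLittleO_log_id_atTop.comp_tendsto tendsto_natCast_atTop_atTop).def
      (show 0 < ξ / (4 * a2) by positivity)
    have h2 := tendsto_natCast_atTop_atTop.eventually_gt_atTop
      ((a1 + 2 * (a2 + a3) + 1) / (ξ / 2) : ℝ)
    filter_upwards [h1, h2, eventually_ge_atTop 1] with L hL1 hL2 hL3
    have hLR : (1 : ℝ) ≤ L := by exact_mod_cast hL3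
    simp only [Function.comp, id] at hL1
    rw [Real.norm_eq_abs, Real.norm_eq_abs, abs_of_nonneg (Real.log_nonneg hLR),
      abs_of_nonneg (by linarith : (0 : ℝ) ≤ L)] at hL1
    have h3 : Real.log ((L : ℝ) + 1) ≤ 1 + Real.log L := by
      have h4 : Real.log ((L : ℝ) + 1) ≤ Real.log (2 * L) :=
        Real.log_le_log (by linarith) (by linarith)
      rw [Real.log_mul (by norm_num) (by linarith)] at h4
      have := Real.log_two_lt_d9
      linarith
    rw [div_lt_iff₀ (by positivity)] at hL2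
    have h5 : a2 * Real.log L ≤ ξ / 4 * L := by
      calc a2 * Real.log L ≤ a2 * (ξ / (4 * a2) * L) := mul_le_mul_of_nonneg_left hL1 ha20.le
        _ = ξ / 4 * L := by field_simp
    have h6 := mul_le_mul_of_nonneg_left h3 ha20.le
    linarith
  filter_upwards [hev, eventually_ge_atTop 1] with L hL hL1 b hb G hG hyG k hk h hkd hrel
  by_contra hne
  have hLR : (1 : ℝ) ≤ L := by exact_mod_cast hL1
  have hlogL : 0 ≤ Real.log ((L : ℝ) + 1) := Real.log_nonneg (by linarith)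
  obtain ⟨δ, hδ⟩ : ∃ δ : ℕ, δ = (m + 1) * k / q := ⟨_, rfl⟩
  have hδR : (δ : ℝ) ≤ (m + 1) * k / q := by
    rw [hδ]
    have := @Nat.cast_div_le ℝ _ _ _ ((m + 1) * k) q
    push_cast at this
    exact this
  have hκδ : (m + 1) * (k + δ + 1) ≤ κ * (δ + 1) := by
    have h1 : (m + 1) * k < q * ((m + 1) * k / q + 1) := Nat.lt_mul_div_succ _ hq1
    rw [← hδ] at h1
    rw [hκ]
    calc (m + 1) * (k + δ + 1) = (m + 1) * k + (m + 1) * (δ + 1) := by ring
      _ ≤ q * (δ + 1) + (m + 1) * (δ + 1) := by linarith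
      _ = (q + (m + 1)) * (δ + 1) := by ring
  clear_value κ
  have hK : (1 + w) * ((k : ℝ) + δ) ≤ (1 - ξ) * L := by
    have h1 : (k : ℝ) + δ ≤ k * (1 + (m + 1) / q) := by
      calc (k : ℝ) + δ ≤ k + (m + 1) * k / q := by linarith
        _ = k * (1 + (m + 1) / q) := by ring
    have hz : (0 : ℝ) ≤ 1 + (m + 1) / q := by positivity
    calc (1 + w) * ((k : ℝ) + δ) ≤ (1 + w) * (k * (1 + (m + 1) / q)) :=
          mul_le_mul_of_nonneg_left h1 (by linarith)
      _ ≤ (1 + w) * (θ * L * (1 + (m + 1) / q)) := by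
          refine mul_le_mul_of_nonneg_left ?_ (by linarith)
          exact mul_le_mul_of_nonneg_right hk hz
      _ = (1 - ξ) * L := by rw [hξ, hu]; ring
  have hKw : (k : ℝ) + δ ≤ (1 + w) * ((k : ℝ) + δ) := by
    have : 0 ≤ w * ((k : ℝ) + δ) := by positivity
    linarith
  have hp : 0 ≤ a1 + 2 * (a2 * Real.log (L + 1) + a3) := by positivity
  have hKL : k + δ + 1 ≤ L := by
    have : (k : ℝ) + δ + 1 ≤ L := by linarith
    exact_mod_cast this
  have hB1 : 1 ≤ (b * (L + 1)) ^ p := Nat.one_le_pow _ _ (by positivity)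
  have hmain := main_ineq m k δ L ((b * (L + 1)) ^ p) κ b hb hB1 y w c
    (((b * (L + 1)) ^ p : ℕ) : ℝ) hy G hG hyG h hne hkd hrel hκδ _ rfl
  have hlog := log_ineq2 m p k δ L κ b hb w c hw hc hKL _ rfl hmain
  rw [← ha1, ← ha2, ← ha3] at hlog
  have hbR : (2 : ℝ) ≤ b := by exact_mod_cast hb
  have hlb : 1 / 2 < Real.log b := by
    have h1 := Real.log_le_log (by norm_num) hbR
    have h2 := Real.log_two_gt_d9
    linarith
  have hkd : ((k + δ : ℕ) : ℝ) = (k : ℝ) + δ := by push_cast; ring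
  rw [hkd] at hlog
  have h2 : (1 + w) * (((k : ℝ) + δ) * Real.log b) ≤ (1 - ξ) * L * Real.log b := by
    have := mul_le_mul_of_nonneg_right hK (by linarith : (0 : ℝ) ≤ Real.log b)
    linarith
  have h3 : (ξ * L - a1) * Real.log b ≤ a2 * Real.log (L + 1) + a3 := by linarith
  have h4 : 0 ≤ ξ * L - a1 := by
    have : 0 ≤ 2 * (a2 * Real.log (L + 1) + a3) := by positivity
    linarith
  have h5 : (ξ * L - a1) * (1 / 2) ≤ (ξ * L - a1) * Real.log b :=
    mul_le_mul_of_nonneg_left hlb.le h4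
  linarith

end Pool.Agent.W472.AC
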