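import Pool.Agent.W472.AC.Digits

/-!
# Relations exist by counting; relations between the digits of several numbers
-/

set_option autoImplicit false

namespace Pool.Agent.W472.AC

open Finset Polynomial Module Filter

/-- relations exist by counting coefficients -/
theorem exists_rel (m k N : ℕ) (G : Fin (m + 1) → ℚ[X]) (h : N < (m + 1) * (k + 1)) :
    ∃ g : Fin (m + 1) → ℚ[X], g ≠ 0 ∧ (∀ j, (g j).natDegree ≤ k) ∧ X ^ N ∣ ∑ j, g j * G j := by
  classical
  set f : (Fin (m + 1) × Fin (k + 1) → ℚ) →ₗ[ℚ] (Fin N → ℚ) :=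
    { toFun := fun w i => ∑ p : Fin (m + 1) × Fin (k + 1), (X ^ (p.2 : ℕ) * G p.1).coeff i * w p
      map_add' := by
        intro w w'
        funext i
        simp only [Pi.add_apply, mul_add, Finset.sum_add_distrib]
      map_smul' := by
        intro a w
        funext i
        simp only [Pi.smul_apply, smul_eq_mul, RingHom.id_apply, Finset.mul_sum]
        refine Finset.sum_congr rfl fun p _ => ?_
        ring } with hf
  have hker : LinearMap.ker f ≠ ⊥ := by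
    apply LinearMap.ker_ne_bot_of_finrank_lt
    simpa using h
  obtain ⟨w, hw, hw0⟩ := (Submodule.ne_bot_iff _).1 hker
  refine ⟨fun j => pol (fun l => w (j, l)), ?_, fun j => pol_natDegree _, ?_⟩
  · intro h0
    apply hw0
    funext p
    exact congrFun (pol_eq_zero _ (congrFun h0 p.1)) p.2
  · rw [X_pow_dvd_iff]
    intro d hd
    rw [coeff_sum_pol]
    exact congrFun (LinearMap.mem_ker.1 hw) ⟨d, hd⟩

/-- `P(X, ∑ a_i X^i) ≡ 0 mod X^(L+1)` for some nonzero `P` of degree `≤ r` in `Y` and `≤ k` in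
`X`, with the digits `a_1, …, a_L` of `x` in base `b` -/
def AlgRelation (b : ℕ) (x : ℝ) (r L k : ℕ) : Prop :=
  ∃ P : ℚ[X][X], P ≠ 0 ∧ P.natDegree ≤ r ∧ (∀ j, (P.coeff j).natDegree ≤ k) ∧
    X ^ (L + 1) ∣ P.eval (digitPoly b x L)

/-- the algebraic complexity of degree `r` of the first `L` digits -/
noncomputable def algComplexity (b : ℕ) (x : ℝ) (r L : ℕ) : ℕ := sInf {k | AlgRelation b x r L k}

theorem algRelation_of_lt (b : ℕ) (x : ℝ) (r L k : ℕ) (h : L + 1 < (r + 1) * (k + 1)) :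
    AlgRelation b x r L k := by
  obtain ⟨g, hg0, hgd, hgX⟩ := exists_rel r k (L + 1) (fun j => digitPoly b x L ^ (j : ℕ)) h
  refine ⟨pol g, ?_, pol_natDegree _, ?_, ?_⟩
  · intro h0
    exact hg0 (pol_eq_zero g h0)
  · intro j
    rw [pol_coeff]
    split_ifs
    · exact hgd _
    · simp
  · have e : (pol g).eval (digitPoly b x L) = ∑ j, g j * digitPoly b x L ^ (j : ℕ) := by
      unfold pol
      rw [eval_finsetSum]
      simp
    rw [e]
    exact hgX

theorem algComplexity_le (b : ℕ) (x : ℝ) (r L : ℕ) :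
    (algComplexity b x r L : ℝ) ≤ L / (r + 1) + 1 := by
  have h1 : L + 1 < (r + 1) * ((L + 1) / (r + 1) + 1) := Nat.lt_mul_div_succ _ (by omega)
  have h2 : algComplexity b x r L ≤ (L + 1) / (r + 1) :=
    Nat.sInf_le (algRelation_of_lt b x r L _ h1)
  have h3 : (((L + 1) / (r + 1) : ℕ) : ℝ) ≤ ((L : ℝ) + 1) / (r + 1) := by
    have := @Nat.cast_div_le ℝ _ _ _ (L + 1) (r + 1)
    push_cast at this
    exact this
  have h4 : ((L : ℝ) + 1) / (r + 1) ≤ L / (r + 1) + 1 := by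
    rw [add_div]
    have : 1 / ((r : ℝ) + 1) ≤ 1 := by
      rw [div_le_one (by positivity)]
      linarith [(Nat.cast_nonneg r : (0 : ℝ) ≤ r)]
    linarith
  have h5 : (algComplexity b x r L : ℝ) ≤ (((L + 1) / (r + 1) : ℕ) : ℝ) := by exact_mod_cast h2
  linarith

/-- **Transference.** -/
theorem alg_transfer (x : ℝ) (r : ℕ) (w : ℝ) (hw : 0 ≤ w)
    (hx : ∀ η : ℝ, 0 < η → ∃ c : ℝ, 0 < c ∧ MeasP x r (w + η) c) (ε : ℝ) (hε : 0 < ε) :
    ∃ L₀ : ℕ, ∀ L : ℕ, L₀ ≤ L → ∀ b : ℕ, 2 ≤ b →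
      (1 / (w + 1) - ε) * L < algComplexity b x r L := by
  -- choose `θ`
  obtain ⟨θ, hθ⟩ : ∃ θ : ℝ, θ = max 0 (1 / (w + 1) - ε) := ⟨_, rfl⟩
  have hθ0 : 0 ≤ θ := by rw [hθ]; exact le_max_left _ _
  have hθ1 : θ * (1 + w) < 1 := by
    rw [hθ]
    rcases max_cases 0 (1 / (w + 1) - ε) with ⟨h1, _⟩ | ⟨h1, _⟩
    · rw [h1]; norm_num
    · rw [h1, sub_mul]
      have : 1 / (w + 1) * (1 + w) = 1 := by field_simp; ring
      rw [this]
      have : 0 < ε * (1 + w) := by positivity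
      linarith
  obtain ⟨η, hη0, hη⟩ : ∃ η : ℝ, 0 < η ∧ θ * (1 + (w + η)) < 1 := by
    refine ⟨(1 - θ * (1 + w)) / (2 * (θ + 1)), div_pos (by linarith) (by linarith), ?_⟩
    have e : θ * (1 + (w + (1 - θ * (1 + w)) / (2 * (θ + 1)))) =
        θ * (1 + w) + (1 - θ * (1 + w)) * (θ / (2 * (θ + 1))) := by ring
    rw [e]
    have h2 : θ / (2 * (θ + 1)) < 1 := by
      rw [div_lt_one (by linarith)]; linarith
    nlinarith
  obtain ⟨c, hc, hM⟩ := hx η hη0
  have h1 := alg_lower x r (w + η) c (by linarith) hc hM θ hθ0 hη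
  rw [eventually_atTop] at h1
  obtain ⟨L₀, hL₀⟩ := h1
  refine ⟨L₀, fun L hL b hb => ?_⟩
  have hne : {k | AlgRelation b x r L k}.Nonempty :=
    ⟨(L + 1) / (r + 1), algRelation_of_lt b x r L _ (Nat.lt_mul_div_succ _ (by omega))⟩
  have hmem : AlgRelation b x r L (algComplexity b x r L) := Nat.sInf_mem hne
  obtain ⟨P, hP0, hPr, hPk, hPX⟩ := hmem
  have h2 : θ * L < algComplexity b x r L := by
    by_contra hcon
    exact hP0 (hL₀ L hL b hb _ (not_lt.1 hcon) P hPr hPk hPX)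
  have h3 : (1 / (w + 1) - ε) * L ≤ θ * L := by
    refine mul_le_mul_of_nonneg_right ?_ (Nat.cast_nonneg _)
    rw [hθ]; exact le_max_right _ _
  linarith

/-- two-sided form when the exponent of `x` is `r` -/
theorem alg_two_sided (x : ℝ) (r : ℕ)
    (hx : ∀ η : ℝ, 0 < η → ∃ c : ℝ, 0 < c ∧ MeasP x r (r + η) c) (ε : ℝ) (hε : 0 < ε) :
    ∃ L₀ : ℕ, ∀ L : ℕ, L₀ ≤ L → ∀ b : ℕ, 2 ≤ b →
      (1 / ((r : ℝ) + 1) - ε) * L < algComplexity b x r L ∧
        (algComplexity b x r L : ℝ) < (1 / ((r : ℝ) + 1) + ε) * L := by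
  obtain ⟨L₀, hL₀⟩ := alg_transfer x r r (Nat.cast_nonneg r) hx ε hε
  obtain ⟨L₁, hL₁⟩ := exists_nat_gt (1 / ε)
  refine ⟨max L₀ L₁, fun L hL b hb => ⟨hL₀ L (le_trans (le_max_left _ _) hL) b hb, ?_⟩⟩
  have h1 := algComplexity_le b x r L
  have h2 : (L₁ : ℝ) ≤ L := by exact_mod_cast le_trans (le_max_right _ _) hL
  have h3 : 1 < ε * L := by
    have : 1 / ε < L := lt_of_lt_of_le hL₁ h2
    rw [div_lt_iff₀ hε] at this
    linarith
  calc (algComplexity b x r L : ℝ) ≤ L / (r + 1) + 1 := h1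
    _ < L / (r + 1) + ε * L := by linarith
    _ = (1 / ((r : ℝ) + 1) + ε) * L := by ring

end Pool.Agent.W472.AC
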