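import Pool.Agent.W472.AC.Asym

/-!
# Algebraic relations satisfied by the digits
-/

set_option autoImplicit false

namespace Pool.Agent.W472.AC

open Finset Polynomial Module Filter

/-- the `i`-th digit of `x` after the point in base `b` -/
noncomputable def digit (b : ℕ) (x : ℝ) (i : ℕ) : ℤ := ⌊x * (b : ℝ) ^ i⌋ % (b : ℤ)

/-- `∑_{i=1}^{L} a_i X^i`, with the digits `a_i` of `x` in base `b`, as an integer polynomial -/
noncomputable def DZ (b : ℕ) (x : ℝ) (L : ℕ) : ℤ[X] := ∑ i ∈ Icc 1 L, C (digit b x i) * X ^ i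

lemma digit_eq (x : ℝ) (b : ℕ) (hb : 1 ≤ b) (i : ℕ) :
    digit b x (i + 1) = ⌊x * (b : ℝ) ^ (i + 1)⌋ - b * ⌊x * (b : ℝ) ^ i⌋ := by
  have hbR : (b : ℝ) ≠ 0 := by positivity
  have h1 : ⌊x * (b : ℝ) ^ (i + 1)⌋ / (b : ℤ) = ⌊x * (b : ℝ) ^ i⌋ := by
    rw [← Int.floor_div_natCast]
    congr 1
    rw [pow_succ]
    field_simp
  unfold digit
  rw [← h1]
  have := Int.mul_ediv_add_emod ⌊x * (b : ℝ) ^ (i + 1)⌋ (b : ℤ)
  linarith

lemma digit_nonneg (x : ℝ) (b : ℕ) (hb : 1 ≤ b) (i : ℕ) : 0 ≤ digit b x i := by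
  unfold digit
  exact Int.emod_nonneg _ (by exact_mod_cast (by omega : b ≠ 0))

lemma digit_le (x : ℝ) (b : ℕ) (hb : 1 ≤ b) (i : ℕ) : digit b x i ≤ b := by
  unfold digit
  exact (Int.emod_lt_of_pos _ (by exact_mod_cast hb)).le

lemma ev_C_mul_X_pow (z : ℝ) (a : ℤ) (n : ℕ) : ev z (C a * X ^ n) = a * z ^ n := by
  unfold ev; simp

lemma ev_DZ (x : ℝ) (b : ℕ) (hb : 1 ≤ b) (L : ℕ) :
    ev (1 / b) (DZ b x L) = ⌊x * (b : ℝ) ^ L⌋ * (1 / b) ^ L - ⌊x⌋ := by
  have hb0 : (0 : ℝ) < b := by exact_mod_cast hb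
  unfold DZ
  rw [ev_sum]
  simp only [ev_C_mul_X_pow]
  induction L with
  | zero => simp
  | succ L ih =>
    rw [Finset.sum_Icc_succ_top (by omega), ih, digit_eq x b hb]
    push_cast
    rw [pow_succ (1 / (b : ℝ)) L]
    field_simp
    ring

lemma ev_DZ_close (x : ℝ) (b : ℕ) (hb : 1 ≤ b) (L : ℕ) :
    0 ≤ Int.fract x - ev (1 / b) (DZ b x L) ∧
      Int.fract x - ev (1 / b) (DZ b x L) ≤ (1 / b) ^ L := by
  have hb0 : (0 : ℝ) < b := by exact_mod_cast hb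
  rw [ev_DZ x b hb]
  have e : Int.fract x - (⌊x * (b : ℝ) ^ L⌋ * (1 / b) ^ L - ⌊x⌋) =
      Int.fract (x * (b : ℝ) ^ L) * (1 / b) ^ L := by
    unfold Int.fract
    have e1 : x * (b : ℝ) ^ L * (1 / b) ^ L = x := by
      rw [mul_assoc, ← mul_pow, mul_one_div_cancel hb0.ne', one_pow, mul_one]
    linear_combination (-1 : ℝ) * e1
  rw [e]
  have h1 := Int.fract_nonneg (x * (b : ℝ) ^ L)
  have h2 := (Int.fract_lt_one (x * (b : ℝ) ^ L)).le
  have h3 : (0 : ℝ) ≤ (1 / (b : ℝ)) ^ L := by positivity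
  exact ⟨mul_nonneg h1 h3, by nlinarith⟩

lemma DZ_coeff_nonneg (x : ℝ) (b : ℕ) (hb : 1 ≤ b) (L i : ℕ) : 0 ≤ (DZ b x L).coeff i := by
  unfold DZ
  rw [finsetSum_coeff]
  refine Finset.sum_nonneg fun l _ => ?_
  rw [coeff_C_mul, coeff_X_pow]
  split_ifs
  · rw [mul_one]; exact digit_nonneg x b hb l
  · rw [mul_zero]

lemma DZ_eval_one (x : ℝ) (b : ℕ) (hb : 1 ≤ b) (L : ℕ) :
    0 ≤ (DZ b x L).eval 1 ∧ (DZ b x L).eval 1 ≤ b * (L + 1) := by
  unfold DZ
  rw [eval_finsetSum]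
  simp only [eval_mul, eval_C, eval_pow, eval_X, one_pow, mul_one]
  refine ⟨Finset.sum_nonneg fun l _ => digit_nonneg x b hb l, ?_⟩
  calc ∑ i ∈ Icc 1 L, digit b x i ≤ ∑ _i ∈ Icc 1 L, (b : ℤ) :=
        Finset.sum_le_sum fun i _ => digit_le x b hb i
    _ = L * b := by rw [Finset.sum_const, Nat.card_Icc, nsmul_eq_mul]; simp
    _ ≤ b * (L + 1) := by
        have : (0 : ℤ) ≤ b := Int.natCast_nonneg _
        nlinarith

lemma coeff_pow_nonneg (p : ℤ[X]) (hp : ∀ i, 0 ≤ p.coeff i) (j : ℕ) :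
    ∀ i, 0 ≤ (p ^ j).coeff i := by
  induction j with
  | zero =>
    intro i
    rw [pow_zero, coeff_one]
    split_ifs <;> norm_num
  | succ j ih =>
    intro i
    rw [pow_succ, coeff_mul]
    exact Finset.sum_nonneg fun x _ => mul_nonneg (ih _) (hp _)

lemma coeff_le_eval_one (p : ℤ[X]) (hp : ∀ i, 0 ≤ p.coeff i) (i : ℕ) : p.coeff i ≤ p.eval 1 := by
  rw [eval_eq_sum_range]
  simp only [one_pow, mul_one]
  by_cases h : i ≤ p.natDegree
  · exact Finset.single_le_sum (f := fun l => p.coeff l) (fun l _ => hp l)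
      (mem_range.2 (by omega))
  · rw [coeff_eq_zero_of_natDegree_lt (by omega)]
    exact Finset.sum_nonneg fun l _ => hp l

lemma DZ_pow_coeff (x : ℝ) (b : ℕ) (hb : 1 ≤ b) (L r j : ℕ) (hj : j ≤ r) (i : ℕ) :
    |((DZ b x L) ^ j).coeff i| ≤ (((b * (L + 1)) ^ r : ℕ) : ℤ) := by
  have h0 := coeff_pow_nonneg (DZ b x L) (DZ_coeff_nonneg x b hb L) j
  rw [abs_of_nonneg (h0 i)]
  refine (coeff_le_eval_one _ h0 i).trans ?_
  rw [eval_pow]
  obtain ⟨h1, h2⟩ := DZ_eval_one x b hb L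
  have h3 : (1 : ℤ) ≤ b * (L + 1) := by
    have : 1 ≤ b * (L + 1) := Nat.mul_pos (by omega) (by omega)
    exact_mod_cast this
  calc (DZ b x L).eval 1 ^ j ≤ ((b : ℤ) * (L + 1)) ^ j := pow_le_pow_left₀ h1 h2 j
    _ ≤ ((b : ℤ) * (L + 1)) ^ r := pow_le_pow_right₀ h3 hj
    _ = _ := by push_cast; ring

lemma pow_sub_pow_le (a b : ℝ) (ha0 : 0 ≤ a) (ha : a ≤ 1) (hb0 : 0 ≤ b) (hb : b ≤ 1) (j : ℕ) :
    |a ^ j - b ^ j| ≤ j * |a - b| := by
  induction j with
  | zero => simp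
  | succ j ih =>
    have e : a ^ (j + 1) - b ^ (j + 1) = a * (a ^ j - b ^ j) + (a - b) * b ^ j := by ring
    rw [e]
    refine (abs_add_le _ _).trans ?_
    rw [abs_mul, abs_mul, abs_of_nonneg ha0, abs_of_nonneg (pow_nonneg hb0 j)]
    have h1 : a * |a ^ j - b ^ j| ≤ j * |a - b| := by
      calc a * |a ^ j - b ^ j| ≤ 1 * |a ^ j - b ^ j| :=
            mul_le_mul_of_nonneg_right ha (abs_nonneg _)
        _ ≤ j * |a - b| := by rw [one_mul]; exact ih
    have h2 : |a - b| * b ^ j ≤ |a - b| := by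
      have : b ^ j ≤ 1 := pow_le_one₀ hb0 hb
      nlinarith [abs_nonneg (a - b)]
    push_cast
    linarith

/-- a measure of transcendence of degree `r` -/
def MeasP (x : ℝ) (r : ℕ) (w c : ℝ) : Prop :=
  ∀ P : ℤ[X], P ≠ 0 → P.natDegree ≤ r → ∀ H : ℝ, 1 ≤ H → (∀ j, |(P.coeff j : ℝ)| ≤ H) →
    c ≤ H ^ w * |aeval x P|

theorem meas_fract (x : ℝ) (r : ℕ) (w c : ℝ) (hc : 0 < c) (hx : MeasP x r w c) :
    ∃ c' : ℝ, 0 < c' ∧ Meas (fun j : Fin (r + 1) => Int.fract x ^ (j : ℕ)) w c' := by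
  set Q : ℤ[X] := X - C ⌊x⌋ with hQ
  set S : ℝ := 1 + ∑ j ∈ range (r + 1), ∑ i ∈ range (r + 1), |(((Q ^ j).coeff i : ℤ) : ℝ)| with hS
  have hS1 : 1 ≤ S := by
    rw [hS]
    have : 0 ≤ ∑ j ∈ range (r + 1), ∑ i ∈ range (r + 1), |(((Q ^ j).coeff i : ℤ) : ℝ)| :=
      Finset.sum_nonneg fun j _ => Finset.sum_nonneg fun i _ => abs_nonneg _
    linarith
  have hS0 : 0 < S := by linarith
  refine ⟨c / S ^ w, by positivity, ?_⟩
  intro a ha H hH haH
  set P0 : ℤ[X] := pol a with hP0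
  have hP00 : P0 ≠ 0 := fun h => ha (pol_eq_zero a h)
  have hP0d : P0.natDegree ≤ r := pol_natDegree a
  have hQd : Q.natDegree = 1 := by rw [hQ]; exact natDegree_X_sub_C _
  have hPd : (P0.comp Q).natDegree ≤ r := by
    rw [natDegree_comp, hQd, mul_one]; exact hP0d
  have hPne : P0.comp Q ≠ 0 := by
    intro h
    rcases comp_eq_zero_iff.1 h with h1 | ⟨_, h2⟩
    · exact hP00 h1
    · have : Q.natDegree = 0 := by rw [h2]; exact natDegree_C _
      omega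
  have hPe : P0.comp Q = ∑ j : Fin (r + 1), C (a j) * Q ^ (j : ℕ) := by
    rw [hP0]
    unfold pol
    rw [Polynomial.sum_comp]
    simp
  have hPH : ∀ i, |((P0.comp Q).coeff i : ℝ)| ≤ H * S := by
    intro i
    by_cases hi : i ≤ r
    · rw [hPe, finsetSum_coeff]
      push_cast
      calc |∑ j : Fin (r + 1), (((C (a j) * Q ^ (j : ℕ)).coeff i : ℤ) : ℝ)|
          ≤ ∑ j : Fin (r + 1), |(((C (a j) * Q ^ (j : ℕ)).coeff i : ℤ) : ℝ)| :=
            Finset.abs_sum_le_sum_abs _ _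
        _ ≤ ∑ j : Fin (r + 1), H * |(((Q ^ (j : ℕ)).coeff i : ℤ) : ℝ)| := by
            refine Finset.sum_le_sum fun j _ => ?_
            rw [coeff_C_mul]
            push_cast
            rw [abs_mul]
            exact mul_le_mul_of_nonneg_right (haH j) (abs_nonneg _)
        _ = H * ∑ j ∈ range (r + 1), |(((Q ^ j).coeff i : ℤ) : ℝ)| := by
            rw [← Finset.mul_sum, Finset.sum_range]
        _ ≤ H * S := by
            refine mul_le_mul_of_nonneg_left ?_ (by linarith)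
            rw [hS]
            have : ∑ j ∈ range (r + 1), |(((Q ^ j).coeff i : ℤ) : ℝ)| ≤
                ∑ j ∈ range (r + 1), ∑ i ∈ range (r + 1), |(((Q ^ j).coeff i : ℤ) : ℝ)| := by
              refine Finset.sum_le_sum fun j _ => ?_
              exact Finset.single_le_sum (f := fun i => |(((Q ^ j).coeff i : ℤ) : ℝ)|)
                (fun _ _ => abs_nonneg _) (mem_range.2 (by omega))
            linarith
    · rw [coeff_eq_zero_of_natDegree_lt (by omega)]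
      simp only [Int.cast_zero, abs_zero]
      positivity
  have h1 := hx (P0.comp Q) hPne hPd (H * S) (by nlinarith) hPH
  have h2 : aeval x (P0.comp Q) = ∑ j : Fin (r + 1), (a j : ℝ) * Int.fract x ^ (j : ℕ) := by
    rw [hPe, map_sum]
    refine Finset.sum_congr rfl fun j _ => ?_
    rw [map_mul, map_pow, hQ, map_sub, aeval_X, aeval_C, aeval_C]
    rfl
  rw [h2, Real.mul_rpow (by linarith) hS0.le] at h1
  rw [div_le_iff₀ (by positivity)]
  calc c ≤ H ^ w * S ^ w * |∑ j : Fin (r + 1), (a j : ℝ) * Int.fract x ^ (j : ℕ)| := h1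
    _ = _ := by ring

/-- the polynomial of the digits over `ℚ` -/
noncomputable def digitPoly (b : ℕ) (x : ℝ) (L : ℕ) : ℚ[X] :=
  ∑ i ∈ Icc 1 L, C (digit b x i : ℚ) * X ^ i

lemma digitPoly_eq (b : ℕ) (x : ℝ) (L : ℕ) :
    digitPoly b x L = (DZ b x L).map (Int.castRingHom ℚ) := by
  unfold digitPoly DZ
  rw [Polynomial.map_sum]
  refine Finset.sum_congr rfl fun i _ => ?_
  simp

/-- **No algebraic relation of small degree.** -/
theorem alg_lower (x : ℝ) (r : ℕ) (w c : ℝ) (hw : 0 ≤ w) (hc : 0 < c) (hx : MeasP x r w c)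
    (θ : ℝ) (hθ0 : 0 ≤ θ) (hθ : θ * (1 + w) < 1) :
    ∀ᶠ L : ℕ in atTop, ∀ b : ℕ, 2 ≤ b → ∀ k : ℕ, (k : ℝ) ≤ θ * L → ∀ P : ℚ[X][X],
      P.natDegree ≤ r → (∀ j, (P.coeff j).natDegree ≤ k) →
      X ^ (L + 1) ∣ P.eval (digitPoly b x L) → P = 0 := by
  obtain ⟨c', hc', hM⟩ := meas_fract x r w c hc hx
  filter_upwards [lower r _ w c' hw hc' hM θ hθ0 hθ] with L hL b hb k hk P hPr hPk hrel
  have hb1 : 1 ≤ b := by omega
  have h1 := hL b hb (fun j => (DZ b x L) ^ (j : ℕ))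
    (fun j i => DZ_pow_coeff x b hb1 L r j (by omega) i)
    (fun j => by
      have hev : ev (1 / (b : ℝ)) ((DZ b x L) ^ (j : ℕ)) = (ev (1 / (b : ℝ)) (DZ b x L)) ^ (j : ℕ) := by
        unfold ev; rw [Polynomial.map_pow, eval_pow]
      rw [hev]
      obtain ⟨h2, h3⟩ := ev_DZ_close x b hb1 L
      have h4 : 0 ≤ ev (1 / (b : ℝ)) (DZ b x L) := by
        rw [ev_eq _ _ _ (Nat.lt_succ_self _)]
        refine Finset.sum_nonneg fun i _ => mul_nonneg ?_ (by positivity)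
        exact_mod_cast DZ_coeff_nonneg x b hb1 L i
      have h5 := Int.fract_nonneg x
      have h6 := (Int.fract_lt_one x).le
      have hz : (0 : ℝ) ≤ (1 / (b : ℝ)) ^ L := by positivity
      refine (pow_sub_pow_le _ _ h5 h6 h4 (by linarith) j).trans ?_
      rw [abs_of_nonneg h2]
      have h7 : ((j : ℕ) : ℝ) ≤ (((b * (L + 1)) ^ r : ℕ) : ℝ) := by
        have : (j : ℕ) ≤ (b * (L + 1)) ^ r := by
          have e1 : (j : ℕ) ≤ r := by omega
          have e2 : r < 2 ^ r := Nat.lt_two_pow_self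
          have e3 : 2 ^ r ≤ (b * (L + 1)) ^ r := Nat.pow_le_pow_left (by nlinarith) r
          omega
        exact_mod_cast this
      exact mul_le_mul h7 h3 h2 (by positivity))
    k hk (fun j => P.coeff j) (fun j => hPk j) (by
      have e : ∑ j : Fin (r + 1), P.coeff j * ((DZ b x L) ^ (j : ℕ)).map (Int.castRingHom ℚ) =
          P.eval (digitPoly b x L) := by
        rw [eval_eq_sum_range' (show P.natDegree < r + 1 by omega), Finset.sum_range, digitPoly_eq]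
        refine Finset.sum_congr rfl fun j _ => ?_
        rw [Polynomial.map_pow]
      rw [e]; exact hrel)
  ext1 j
  by_cases hj : j < r + 1
  · have := congrFun h1 ⟨j, hj⟩
    simpa using this
  · rw [coeff_eq_zero_of_natDegree_lt (by omega), coeff_zero]

end Pool.Agent.W472.AC
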