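import Pool.Agent.W472.AC.Digits
import Pool.Agent.Helper379.MahlerExp

/-!
# Measure of linear independence of powers of `e`
-/

set_option autoImplicit false

namespace Pool.Agent.W472.AC

open Finset Polynomial Module Filter Nat

lemma fact_pow (A η : ℝ) (hA : 0 ≤ A) (hη : 0 < η) :
    ∃ C : ℝ, 0 < C ∧ ∀ n : ℕ, A ^ n ≤ C * (((n ! : ℕ) : ℝ)) ^ η := by
  have h1 := FloorSemiring.tendsto_pow_div_factorial_atTop (A ^ (1 / η))
  obtain ⟨C, hC⟩ := h1.bddAbove_range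
  have hb : ∀ n : ℕ, (A ^ (1 / η)) ^ n / (n ! : ℝ) ≤ max C 1 := fun n =>
    (hC ⟨n, rfl⟩).trans (le_max_left _ _)
  refine ⟨(max C 1) ^ η, by positivity, fun n => ?_⟩
  have hf : (0 : ℝ) < (n ! : ℕ) := by exact_mod_cast Nat.factorial_pos n
  have h2 := hb n
  rw [div_le_iff₀ hf] at h2
  have h3 : ((A ^ (1 / η)) ^ n) ^ η ≤ (max C 1 * (n ! : ℕ)) ^ η :=
    Real.rpow_le_rpow (by positivity) h2 hη.le
  have h4 : ((A ^ (1 / η)) ^ n) ^ η = A ^ n := by
    rw [← Real.rpow_natCast (A ^ (1 / η)) n, ← Real.rpow_mul hA, ← Real.rpow_mul hA,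
      ← Real.rpow_natCast A n]
    congr 1
    field_simp
  rw [h4, Real.mul_rpow (by positivity) hf.le] at h3
  exact h3

/-- the basic inequality -/
theorem row_ineq (m N K l : ℕ) (hN : 1 ≤ N) (hK1 : 1 ≤ K) (hl : l.Prime) (hKl : K < l)
    (hlN : l ∣ N) (k : Fin (m + 1) → ℤ) (hinj : Function.Injective k) (hk0 : k 0 = 0)
    (h0 : ∀ i, 0 ≤ k i) (hK : ∀ i, k i ≤ K) (a : Fin (m + 1) → ℤ) (ha : a ≠ 0) (H : ℝ)
    (hH : ∀ i, |(a i : ℝ)| ≤ H) :
    1 ≤ ((2 * (K : ℝ)) ^ ((m + 1) * N - 1) * (((m + 1) * N - 1)! : ℝ) / ((N - 1)! : ℝ)) *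
        |∑ i, (a i : ℝ) * Real.exp (k i)| +
      (m + 1) * H * (Real.exp K * (K : ℝ) ^ ((m + 1) * N - 1) / ((N - 1)! : ℝ)) := by
  obtain ⟨A, hA, hAe⟩ := MahlerExp.exists_matrix m N K l hN hl hKl hlN k hinj h0 hK
  have hf : (0 : ℝ) < ((N - 1)! : ℝ) := by exact_mod_cast Nat.factorial_pos _
  have hex : ∃ j, ∑ i, A j i * a i ≠ 0 := by
    by_contra hcon
    push Not at hcon
    apply ha
    have h1 : A.mulVec a = 0 := by
      funext j
      exact hcon j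
    exact Matrix.eq_zero_of_mulVec_eq_zero hA h1
  obtain ⟨j, hj⟩ := hex
  have h1 : (1 : ℝ) ≤ |((∑ i, A j i * a i : ℤ) : ℝ)| := by
    rw [← Int.cast_abs]
    exact_mod_cast Int.one_le_abs hj
  have hAr : ∀ i, ((N - 1)! : ℝ) * (A j i : ℝ) = (MahlerExp.SF (MahlerExp.HF m N k j) (k i) : ℝ) := by
    intro i
    rw [← hAe j i]
    push_cast
    ring
  have hdiff : ∀ i, |Real.exp (k i) * (A j 0 : ℝ) - (A j i : ℝ)| ≤
      Real.exp K * (K : ℝ) ^ ((m + 1) * N - 1) / ((N - 1)! : ℝ) := by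
    intro i
    rw [le_div_iff₀ hf]
    have h2 := MahlerExp.HF_diff m N K hK1 hN k h0 hK i j
    have h4 := hAr 0
    rw [hk0] at h4
    rw [← h4, ← hAr i] at h2
    have h5 : Real.exp (k i) * (((N - 1)! : ℝ) * (A j 0 : ℝ)) - ((N - 1)! : ℝ) * (A j i : ℝ) =
        ((N - 1)! : ℝ) * (Real.exp (k i) * (A j 0 : ℝ) - (A j i : ℝ)) := by ring
    rw [h5, abs_mul, abs_of_pos hf] at h2
    linarith
  have hA0 : |(A j 0 : ℝ)| ≤
      (2 * (K : ℝ)) ^ ((m + 1) * N - 1) * (((m + 1) * N - 1)! : ℝ) / ((N - 1)! : ℝ) := by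
    rw [le_div_iff₀ hf]
    have h2 := MahlerExp.SF_zero_bound m N K hK1 hN k h0 hK j
    have h3 : (|MahlerExp.SF (MahlerExp.HF m N k j) 0| : ℝ) ≤ (2 * (K : ℝ)) ^ ((m + 1) * N - 1) *
        (((m + 1) * N - 1)! : ℝ) := by
      have h4 : ((|MahlerExp.SF (MahlerExp.HF m N k j) 0| : ℤ) : ℝ) ≤
        (((2 * (K : ℤ)) ^ ((m + 1) * N - 1) * ((((m + 1) * N - 1)! : ℕ) : ℤ) : ℤ) : ℝ) := by
        exact_mod_cast h2
      push_cast at h4
      exact h4
    have h5 := hAr 0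
    rw [hk0] at h5
    rw [← h5, abs_mul, abs_of_pos hf] at h3
    linarith
  have e1 : ((∑ i, A j i * a i : ℤ) : ℝ) = (A j 0 : ℝ) * ∑ i, (a i : ℝ) * Real.exp (k i) -
      ∑ i, (a i : ℝ) * (Real.exp (k i) * (A j 0 : ℝ) - (A j i : ℝ)) := by
    push_cast
    rw [Finset.mul_sum, ← Finset.sum_sub_distrib]
    refine Finset.sum_congr rfl fun i _ => ?_
    ring
  rw [e1] at h1
  refine h1.trans ((abs_sub _ _).trans (add_le_add ?_ ?_))
  · rw [abs_mul]
    exact mul_le_mul_of_nonneg_right hA0 (abs_nonneg _)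
  · calc |∑ i, (a i : ℝ) * (Real.exp (k i) * (A j 0 : ℝ) - (A j i : ℝ))|
        ≤ ∑ i, |(a i : ℝ) * (Real.exp (k i) * (A j 0 : ℝ) - (A j i : ℝ))| :=
          Finset.abs_sum_le_sum_abs _ _
      _ ≤ ∑ _i : Fin (m + 1), H * (Real.exp K * (K : ℝ) ^ ((m + 1) * N - 1) / ((N - 1)! : ℝ)) := by
          refine Finset.sum_le_sum fun i _ => ?_
          rw [abs_mul]
          exact mul_le_mul (hH i) (hdiff i) (abs_nonneg _) ((abs_nonneg _).trans (hH i))
      _ = _ := by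
          rw [Finset.sum_const, Finset.card_univ, Fintype.card_fin, nsmul_eq_mul]
          push_cast
          ring

lemma fact_mul_le (m N : ℕ) (hN : 1 ≤ N) :
    (((m + 1) * N - 1)! : ℝ) / ((N - 1)! : ℝ) ≤
      ((m + 1 : ℝ) ^ ((m + 1) * N)) * N * ((N ! : ℕ) : ℝ) ^ m := by
  have h1 : ((m + 1) * N - 1)! ≤ ((m + 1) * N)! := Nat.factorial_le (by omega)
  have h2 : ((m + 1) * N)! ≤ (m + 1) ^ ((m + 1) * N) * (N !) ^ (m + 1) := by
    have h3 := Nat.multinomial_spec (s := (Finset.univ : Finset (Fin (m + 1)))) (fun _ => N)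
    simp only [Finset.prod_const, Finset.sum_const, Finset.card_univ, Fintype.card_fin,
      smul_eq_mul] at h3
    have h4 : Nat.multinomial (Finset.univ : Finset (Fin (m + 1))) (fun _ => N) ≤
        (m + 1) ^ ((m + 1) * N) := by
      have h5 := Finset.sum_pow_eq_sum_piAntidiag (Finset.univ : Finset (Fin (m + 1)))
        (fun _ => (1 : ℕ)) ((m + 1) * N)
      simp only [Finset.sum_const, Finset.card_univ, Fintype.card_fin, smul_eq_mul, mul_one,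
        one_pow, Finset.prod_const_one, Nat.cast_id] at h5
      rw [h5]
      refine Finset.single_le_sum (f := fun k => Nat.multinomial Finset.univ k)
        (fun _ _ => Nat.zero_le _) ?_
      rw [Finset.mem_piAntidiag]
      simp
    rw [← h3, mul_comm]
    exact Nat.mul_le_mul_right _ h4
  have h3 : ((N ! : ℕ) : ℝ) = N * ((N - 1)! : ℕ) := by
    rw [← Nat.mul_factorial_pred (by omega : N ≠ 0)]
    push_cast
    ring
  have hf : (0 : ℝ) < ((N - 1)! : ℝ) := by exact_mod_cast Nat.factorial_pos _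
  rw [div_le_iff₀ hf]
  calc (((m + 1) * N - 1)! : ℝ) ≤ (((m + 1) ^ ((m + 1) * N) * (N !) ^ (m + 1) : ℕ) : ℝ) := by
        exact_mod_cast h1.trans h2
    _ = ((m + 1 : ℝ) ^ ((m + 1) * N)) * (((N ! : ℕ) : ℝ) ^ m * ((N ! : ℕ) : ℝ)) := by
        push_cast; ring
    _ = ((m + 1 : ℝ) ^ ((m + 1) * N)) * (((N ! : ℕ) : ℝ) ^ m * (N * ((N - 1)! : ℕ))) := by
        rw [← h3]
    _ = _ := by ring

end Pool.Agent.W472.AC
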