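import Pool.Agent.W472.AC.Rel

/-!
# Evaluation of small relations at `1 / b`
-/

set_option autoImplicit false

namespace Pool.Agent.W472.AC

open Finset Polynomial Module

/-- real evaluation of an integer polynomial -/
noncomputable def ev (z : ℝ) (p : ℤ[X]) : ℝ := (p.map (Int.castRingHom ℝ)).eval z

lemma ev_mul (z : ℝ) (p q : ℤ[X]) : ev z (p * q) = ev z p * ev z q := by
  unfold ev; rw [Polynomial.map_mul, eval_mul]

lemma ev_sum {ι : Type} (s : Finset ι) (z : ℝ) (p : ι → ℤ[X]) :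
    ev z (∑ i ∈ s, p i) = ∑ i ∈ s, ev z (p i) := by
  unfold ev; rw [Polynomial.map_sum, eval_finsetSum]

lemma ev_X_pow (z : ℝ) (n : ℕ) : ev z (X ^ n) = z ^ n := by
  unfold ev; simp

lemma ev_eq (z : ℝ) (p : ℤ[X]) (n : ℕ) (h : p.natDegree < n) :
    ev z p = ∑ i ∈ range n, (p.coeff i : ℝ) * z ^ i := by
  unfold ev
  rw [eval_eq_sum_range' (lt_of_le_of_lt natDegree_map_le h)]
  simp

lemma geom_le (z : ℝ) (h0 : 0 ≤ z) (h1 : z ≤ 1 / 2) (n : ℕ) : ∑ i ∈ range n, z ^ i ≤ 2 := by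
  have h2 : ∑ i ∈ range n, z ^ i ≤ ∑ i ∈ range n, (1 / 2 : ℝ) ^ i :=
    Finset.sum_le_sum fun i _ => pow_le_pow_left₀ h0 h1 i
  have h3 : ∑ i ∈ range n, (1 / 2 : ℝ) ^ i = 2 - 2 * (1 / 2) ^ n := by
    induction n with
    | zero => simp
    | succ n ih =>
      rw [Finset.sum_range_succ, ih (by exact Finset.sum_le_sum fun i _ => pow_le_pow_left₀ h0 h1 i),
        pow_succ]
      ring
  have h4 : (0 : ℝ) ≤ (1 / 2) ^ n := by positivity
  linarith

lemma ev_abs (z : ℝ) (h0 : 0 ≤ z) (h1 : z ≤ 1 / 2) (p : ℤ[X]) (M : ℝ) (hM0 : 0 ≤ M)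
    (hM : ∀ i, |(p.coeff i : ℝ)| ≤ M) : |ev z p| ≤ 2 * M := by
  rw [ev_eq z p _ (Nat.lt_succ_self _)]
  calc |∑ i ∈ range (p.natDegree + 1), (p.coeff i : ℝ) * z ^ i|
      ≤ ∑ i ∈ range (p.natDegree + 1), |(p.coeff i : ℝ) * z ^ i| := Finset.abs_sum_le_sum_abs _ _
    _ ≤ ∑ i ∈ range (p.natDegree + 1), M * z ^ i := by
        refine Finset.sum_le_sum fun i _ => ?_
        rw [abs_mul, abs_of_nonneg (pow_nonneg h0 i)]
        exact mul_le_mul_of_nonneg_right (hM i) (pow_nonneg h0 i)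
    _ = M * ∑ i ∈ range (p.natDegree + 1), z ^ i := by rw [Finset.mul_sum]
    _ ≤ M * 2 := mul_le_mul_of_nonneg_left (geom_le z h0 h1 _) hM0
    _ = 2 * M := mul_comm _ _

lemma ev_abs_dvd (z : ℝ) (h0 : 0 ≤ z) (h1 : z ≤ 1 / 2) (p : ℤ[X]) (M : ℝ) (hM0 : 0 ≤ M)
    (hM : ∀ i, |(p.coeff i : ℝ)| ≤ M) (N : ℕ) (hX : X ^ N ∣ p) : |ev z p| ≤ 2 * M * z ^ N := by
  obtain ⟨q, rfl⟩ := hX
  rw [ev_mul, ev_X_pow, abs_mul, abs_of_nonneg (pow_nonneg h0 N), mul_comm]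
  refine mul_le_mul_of_nonneg_right (ev_abs z h0 h1 q M hM0 fun i => ?_) (pow_nonneg h0 N)
  have := hM (i + N)
  rwa [coeff_X_pow_mul] at this

lemma coeff_mul_bound (K H B : ℕ) (p q : ℤ[X]) (hK : p.natDegree ≤ K)
    (hH : ∀ i, |p.coeff i| ≤ H) (hB : ∀ i, |q.coeff i| ≤ B) (i : ℕ) :
    |(p * q).coeff i| ≤ (((K + 1) * H * B : ℕ) : ℤ) := by
  have h2 := p.as_sum_range_C_mul_X_pow' (show p.natDegree < K + 1 by omega)
  have h3 : (p * q).coeff i = ∑ l ∈ range (K + 1), (C (p.coeff l) * X ^ l * q).coeff i := by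
    conv_lhs => rw [h2]
    rw [Finset.sum_mul, finsetSum_coeff]
  have h4 : ∀ l ∈ range (K + 1), |(C (p.coeff l) * X ^ l * q).coeff i| ≤ ((H : ℤ) * (B : ℤ)) := by
    intro l _
    rw [mul_assoc, coeff_C_mul, coeff_X_pow_mul', abs_mul]
    refine mul_le_mul (hH _) ?_ (abs_nonneg _) (Int.natCast_nonneg _)
    split_ifs
    · exact hB _
    · rw [abs_zero]; exact Int.natCast_nonneg _
  rw [h3]
  refine (Finset.abs_sum_le_sum_abs _ _).trans ((Finset.sum_le_sum h4).trans (le_of_eq ?_))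
  rw [Finset.sum_const, card_range, nsmul_eq_mul]
  push_cast
  ring

lemma coeff_sum_bound (m K H B : ℕ) (t G : Fin (m + 1) → ℤ[X]) (hK : ∀ j, (t j).natDegree ≤ K)
    (hH : ∀ j i, |(t j).coeff i| ≤ H) (hB : ∀ j i, |(G j).coeff i| ≤ B) (i : ℕ) :
    |(∑ j, t j * G j).coeff i| ≤ (((m + 1) * (K + 1) * H * B : ℕ) : ℤ) := by
  rw [finsetSum_coeff]
  calc |∑ j, (t j * G j).coeff i| ≤ ∑ j, |(t j * G j).coeff i| := Finset.abs_sum_le_sum_abs _ _
    _ ≤ ∑ _j : Fin (m + 1), (((K + 1) * H * B : ℕ) : ℤ) :=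
        Finset.sum_le_sum fun j _ => coeff_mul_bound K H B _ _ (hK j) (hH j) (hB j) i
    _ = (((m + 1) * (K + 1) * H * B : ℕ) : ℤ) := by
        rw [Finset.sum_const, Finset.card_univ, Fintype.card_fin, nsmul_eq_mul]
        push_cast
        ring

/-- a measure of linear independence of the numbers `y j` -/
def Meas {m : ℕ} (y : Fin (m + 1) → ℝ) (w c : ℝ) : Prop :=
  ∀ a : Fin (m + 1) → ℤ, a ≠ 0 → ∀ H : ℝ, 1 ≤ H → (∀ j, |(a j : ℝ)| ≤ H) →
    c ≤ H ^ w * |∑ j, (a j : ℝ) * y j|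

/-- the main inequality -/
theorem main_ineq (m k δ L B κ b : ℕ) (hb : 2 ≤ b) (hB : 1 ≤ B) (y : Fin (m + 1) → ℝ) (w c E : ℝ)
    (hy : Meas y w c) (G : Fin (m + 1) → ℤ[X])
    (hG : ∀ j i, |(G j).coeff i| ≤ B) (hyG : ∀ j, |y j - ev (1 / b) (G j)| ≤ E * (1 / b) ^ L)
    (h : Fin (m + 1) → ℚ[X]) (hne : h ≠ 0) (hk : ∀ j, (h j).natDegree ≤ k)
    (hrel : X ^ (L + 1) ∣ ∑ j, h j * (G j).map (Int.castRingHom ℚ))
    (hκ : (m + 1) * (k + δ + 1) ≤ κ * (δ + 1)) (H : ℕ)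
    (hH : H = ((m + 1) * (k + δ + 1) * B) ^ κ) :
    c ≤ (2 * H * (b : ℝ) ^ (k + δ)) ^ w *
      ((b : ℝ) ^ (k + δ) * ((1 / b) ^ L * (2 * (m + 1) * H * ((k + δ + 1) * B + E)))) := by
  obtain ⟨t, ht0, htd, htH, htX⟩ := small_rel m k δ (L + 1) B κ hB G hG h hne hk hrel hκ
  rw [← hH] at htH
  obtain ⟨s, hsd, hsH, hsX, j0, hj0⟩ := nonvanish m (L + 1) b H hb G (k + δ) t ht0 htd htH htX
  set K := k + δ with hK
  have hbR : (2 : ℝ) ≤ b := by exact_mod_cast hb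
  have hb0 : (0 : ℝ) < b := by linarith
  set z : ℝ := 1 / b with hz
  have hz0 : 0 < z := by positivity
  have hz1 : z ≤ 1 / 2 := by
    rw [hz]; exact one_div_le_one_div_of_le (by norm_num) hbR
  have hH1 : 1 ≤ H := by
    rw [hH]
    exact Nat.one_le_pow _ _ (by positivity)
  have hHR : (1 : ℝ) ≤ H := by exact_mod_cast hH1
  set a : Fin (m + 1) → ℤ := fun j => ∑ i ∈ range (K + 1), (s j).coeff i * (b : ℤ) ^ (K - i) with ha
  have ha0 : a ≠ 0 := fun h0 => hj0 (congrFun h0 j0)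
  have haev : ∀ j, (a j : ℝ) = (b : ℝ) ^ K * ev z (s j) := by
    intro j
    rw [ev_eq z (s j) (K + 1) (by have := hsd j; omega), ha, Finset.mul_sum]
    push_cast
    refine Finset.sum_congr rfl fun i hi => ?_
    rw [mem_range] at hi
    have e : (b : ℝ) ^ K = (b : ℝ) ^ (K - i) * (b : ℝ) ^ i := by
      rw [← pow_add]; congr 1; omega
    rw [e, hz, div_pow, one_pow]
    field_simp
  have hsev : ∀ j, |ev z (s j)| ≤ 2 * H := by
    intro j
    refine ev_abs z hz0.le hz1 (s j) H (by positivity) fun i => ?_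
    exact_mod_cast hsH j i
  have hbK : (1 : ℝ) ≤ (b : ℝ) ^ K := one_le_pow₀ (by linarith)
  have haH : ∀ j, |(a j : ℝ)| ≤ 2 * H * (b : ℝ) ^ K := by
    intro j
    rw [haev, abs_mul, abs_of_pos (by positivity : (0 : ℝ) < (b : ℝ) ^ K), mul_comm]
    exact mul_le_mul_of_nonneg_right (hsev j) (by positivity)
  have h1 := hy a ha0 (2 * H * (b : ℝ) ^ K) (by nlinarith) haH
  have h2 : |∑ j, (a j : ℝ) * y j| ≤
      (b : ℝ) ^ K * (z ^ L * (2 * (m + 1) * H * ((K + 1) * B + E))) := by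
    have e1 : ∑ j, (a j : ℝ) * y j =
        (b : ℝ) ^ K * (ev z (∑ j, s j * G j) + ∑ j, ev z (s j) * (y j - ev z (G j))) := by
      rw [ev_sum]
      simp only [ev_mul]
      rw [← Finset.sum_add_distrib, Finset.mul_sum]
      refine Finset.sum_congr rfl fun j _ => ?_
      rw [haev]
      ring
    have e2 : |ev z (∑ j, s j * G j)| ≤ 2 * ((m + 1) * (K + 1) * H * B) * z ^ (L + 1) := by
      refine ev_abs_dvd z hz0.le hz1 _ _ (by positivity) (fun i => ?_) (L + 1) hsX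
      have := coeff_sum_bound m K H B s G hsd hsH hG i
      exact_mod_cast this
    have e3 : |∑ j, ev z (s j) * (y j - ev z (G j))| ≤ (m + 1) * (2 * H * (E * z ^ L)) := by
      calc |∑ j, ev z (s j) * (y j - ev z (G j))|
          ≤ ∑ j, |ev z (s j) * (y j - ev z (G j))| := Finset.abs_sum_le_sum_abs _ _
        _ ≤ ∑ _j : Fin (m + 1), 2 * H * (E * z ^ L) := by
            refine Finset.sum_le_sum fun j _ => ?_
            rw [abs_mul]
            exact mul_le_mul (hsev j) (hyG j) (abs_nonneg _) (by positivity)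
        _ = (m + 1) * (2 * H * (E * z ^ L)) := by
            rw [Finset.sum_const, Finset.card_univ, Fintype.card_fin, nsmul_eq_mul]
            push_cast
            ring
    rw [e1, abs_mul, abs_of_pos (by positivity : (0 : ℝ) < (b : ℝ) ^ K)]
    refine mul_le_mul_of_nonneg_left ?_ (by positivity)
    refine (abs_add_le _ _).trans ((add_le_add e2 e3).trans ?_)
    have e4 : z ^ (L + 1) ≤ z ^ L := by
      rw [pow_succ]
      have : 0 ≤ z ^ L := by positivity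
      nlinarith
    have e5 : 2 * ((m + 1) * (K + 1) * H * B) * z ^ (L + 1) ≤
        2 * (((m : ℝ) + 1) * (K + 1) * H * B) * z ^ L :=
      mul_le_mul_of_nonneg_left e4 (by positivity)
    calc 2 * ((m + 1) * (K + 1) * H * B) * z ^ (L + 1) + (m + 1) * (2 * H * (E * z ^ L))
        ≤ 2 * (((m : ℝ) + 1) * (K + 1) * H * B) * z ^ L + (m + 1) * (2 * H * (E * z ^ L)) := by
          linarith
      _ = z ^ L * (2 * (m + 1) * H * ((K + 1) * B + E)) := by ring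
  have e6 : ((K : ℕ) : ℝ) = (k : ℝ) + δ := by rw [hK]; push_cast; ring
  rw [e6] at h2
  refine h1.trans (mul_le_mul_of_nonneg_left h2 (by positivity))

end Pool.Agent.W472.AC
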