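import Pool.Agent.W472.AC.Field

/-!
# Relations between monomials in the digit polynomials of several numbers
-/

set_option autoImplicit false

namespace Pool.Agent.W472.AC

open Finset Polynomial Module Filter

theorem two_sided_of (Rel : ℕ → ℕ → ℕ → Prop) (m : ℕ) (w : ℝ) (hw : 0 ≤ w)
    (hup : ∀ b L k, L + 1 < (m + 1) * (k + 1) → Rel b L k)
    (hlow : ∀ θ : ℝ, 0 ≤ θ → θ * (1 + w) < 1 → ∀ᶠ L : ℕ in atTop, ∀ b : ℕ, 2 ≤ b → ∀ k : ℕ,
      (k : ℝ) ≤ θ * L → ¬ Rel b L k) (ε : ℝ) (hε : 0 < ε) :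
    ∃ L₀ : ℕ, ∀ L : ℕ, L₀ ≤ L → ∀ b : ℕ, 2 ≤ b →
      (1 / (w + 1) - ε) * L < (sInf {k | Rel b L k} : ℕ) ∧
        ((sInf {k | Rel b L k} : ℕ) : ℝ) < (1 / ((m : ℝ) + 1) + ε) * L := by
  obtain ⟨θ, hθ⟩ : ∃ θ : ℝ, θ = max 0 (1 / (w + 1) - ε) := ⟨_, rfl⟩
  have hθ0 : 0 ≤ θ := by rw [hθ]; exact le_max_left _ _
  have hθ1 : θ * (1 + w) < 1 := by
    rw [hθ]
    rcases max_cases 0 (1 / (w + 1) - ε) with ⟨h1, _⟩ | ⟨h1, _⟩
    · rw [h1]; norm_num
    · rw [h1, sub_mul]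
      have : 1 / (w + 1) * (1 + w) = 1 := by field_simp; ring
      rw [this]
      have : 0 < ε * (1 + w) := by positivity
      linarith
  have h1 := hlow θ hθ0 hθ1
  rw [eventually_atTop] at h1
  obtain ⟨L₀, hL₀⟩ := h1
  obtain ⟨L₁, hL₁⟩ := exists_nat_gt (1 / ε)
  refine ⟨max L₀ L₁, fun L hL b hb => ?_⟩
  have h1 : L + 1 < (m + 1) * ((L + 1) / (m + 1) + 1) := Nat.lt_mul_div_succ _ (by omega)
  have hne : {k | Rel b L k}.Nonempty := ⟨(L + 1) / (m + 1), hup _ _ _ h1⟩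
  have hmem : Rel b L (sInf {k | Rel b L k}) := Nat.sInf_mem hne
  obtain ⟨κ, hκ⟩ : ∃ κ : ℕ, κ = sInf {k | Rel b L k} := ⟨_, rfl⟩
  rw [← hκ] at hmem ⊢
  constructor
  · have h2 : θ * L < κ := by
      by_contra hcon
      exact hL₀ L (le_trans (le_max_left _ _) hL) b hb _ (not_lt.1 hcon) hmem
    have h3 : (1 / (w + 1) - ε) * L ≤ θ * L := by
      refine mul_le_mul_of_nonneg_right ?_ (Nat.cast_nonneg _)
      rw [hθ]; exact le_max_right _ _
    linarith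
  · have h2 : κ ≤ (L + 1) / (m + 1) := by rw [hκ]; exact Nat.sInf_le (hup _ _ _ h1)
    have h3 : (((L + 1) / (m + 1) : ℕ) : ℝ) ≤ ((L : ℝ) + 1) / (m + 1) := by
      have := @Nat.cast_div_le ℝ _ _ _ (L + 1) (m + 1)
      push_cast at this
      exact this
    have h4 : ((L : ℝ) + 1) / (m + 1) ≤ L / (m + 1) + 1 := by
      rw [add_div]
      have : 1 / ((m : ℝ) + 1) ≤ 1 := by
        rw [div_le_one (by positivity)]
        linarith [(Nat.cast_nonneg m : (0 : ℝ) ≤ m)]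
      linarith
    have h5 : (κ : ℝ) ≤ (((L + 1) / (m + 1) : ℕ) : ℝ) := by exact_mod_cast h2
    have h6 : (L₁ : ℝ) ≤ L := by exact_mod_cast le_trans (le_max_right _ _) hL
    have h7 : 1 < ε * L := by
      have : 1 / ε < L := lt_of_lt_of_le hL₁ h6
      rw [div_lt_iff₀ hε] at this
      linarith
    calc (κ : ℝ) ≤ L / (m + 1) + 1 := by linarith
      _ < L / (m + 1) + ε * L := by linarith
      _ = (1 / ((m : ℝ) + 1) + ε) * L := by ring

/-- a relation between the monomials with exponents `E j` in the digit polynomials of the `x i` -/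
def MonRelation (b : ℕ) {n m : ℕ} (x : Fin n → ℝ) (E : Fin (m + 1) → Fin n → ℕ) (L k : ℕ) : Prop :=
  ∃ h : Fin (m + 1) → ℚ[X], h ≠ 0 ∧ (∀ j, (h j).natDegree ≤ k) ∧
    X ^ (L + 1) ∣ ∑ j, h j * ∏ i, digitPoly b (x i) L ^ E j i

/-- the joint complexity with respect to these monomials -/
noncomputable def monComplexity (b : ℕ) {n m : ℕ} (x : Fin n → ℝ) (E : Fin (m + 1) → Fin n → ℕ)
    (L : ℕ) : ℕ := sInf {k | MonRelation b x E L k}

theorem monRelation_of_lt (b : ℕ) {n m : ℕ} (x : Fin n → ℝ) (E : Fin (m + 1) → Fin n → ℕ)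
    (L k : ℕ) (h : L + 1 < (m + 1) * (k + 1)) : MonRelation b x E L k :=
  exists_rel m k (L + 1) (fun j => ∏ i, digitPoly b (x i) L ^ E j i) h

lemma prod_pow_sub_le {n : ℕ} (a v : Fin n → ℝ) (ha0 : ∀ i, 0 ≤ a i) (ha : ∀ i, a i ≤ 1)
    (hv0 : ∀ i, 0 ≤ v i) (hv : ∀ i, v i ≤ 1) (e : Fin n → ℕ) (s : Finset (Fin n)) :
    |∏ i ∈ s, a i ^ e i - ∏ i ∈ s, v i ^ e i| ≤ ∑ i ∈ s, e i * |a i - v i| := by
  classical
  induction s using Finset.induction_on with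
  | empty => simp
  | insert i s hi ih =>
    rw [Finset.prod_insert hi, Finset.prod_insert hi, Finset.sum_insert hi]
    have h1 : 0 ≤ ∏ i ∈ s, a i ^ e i := Finset.prod_nonneg fun i _ => pow_nonneg (ha0 i) _
    have h2 : ∏ i ∈ s, a i ^ e i ≤ 1 :=
      Finset.prod_le_one (fun i _ => pow_nonneg (ha0 i) _) fun i _ => pow_le_one₀ (ha0 i) (ha i)
    have h3 : 0 ≤ v i ^ e i := pow_nonneg (hv0 i) _
    have h4 : v i ^ e i ≤ 1 := pow_le_one₀ (hv0 i) (hv i)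
    have e1 : a i ^ e i * ∏ i ∈ s, a i ^ e i - v i ^ e i * ∏ i ∈ s, v i ^ e i =
        (a i ^ e i - v i ^ e i) * (∏ i ∈ s, a i ^ e i) +
          v i ^ e i * (∏ i ∈ s, a i ^ e i - ∏ i ∈ s, v i ^ e i) := by ring
    rw [e1]
    refine (abs_add_le _ _).trans ?_
    rw [abs_mul, abs_mul, abs_of_nonneg h1, abs_of_nonneg h3]
    have h5 := pow_sub_pow_le (a i) (v i) (ha0 i) (ha i) (hv0 i) (hv i) (e i)
    have h6 : |a i ^ e i - v i ^ e i| * (∏ i ∈ s, a i ^ e i) ≤ e i * |a i - v i| :=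
      (mul_le_of_le_one_right (abs_nonneg _) h2).trans h5
    have h7 : v i ^ e i * |∏ i ∈ s, a i ^ e i - ∏ i ∈ s, v i ^ e i| ≤
        ∑ i ∈ s, e i * |a i - v i| := (mul_le_of_le_one_left (abs_nonneg _) h4).trans ih
    linarith

lemma prod_coeff_nonneg {n : ℕ} (p : Fin n → ℤ[X]) (hp : ∀ i l, 0 ≤ (p i).coeff l)
    (e : Fin n → ℕ) (s : Finset (Fin n)) : ∀ l, 0 ≤ (∏ i ∈ s, p i ^ e i).coeff l := by
  classical
  induction s using Finset.induction_on with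
  | empty =>
    intro l
    rw [Finset.prod_empty, coeff_one]
    split_ifs <;> norm_num
  | insert i s hi ih =>
    intro l
    rw [Finset.prod_insert hi, coeff_mul]
    exact Finset.sum_nonneg fun x _ => mul_nonneg (coeff_pow_nonneg _ (hp i) _ _) (ih _)

/-- **No relation of small degree.** -/
theorem mon_lower {n m : ℕ} (x : Fin n → ℝ) (E : Fin (m + 1) → Fin n → ℕ) (w c : ℝ) (hw : 0 ≤ w)
    (hc : 0 < c) (hx : Meas (fun j => ∏ i, Int.fract (x i) ^ E j i) w c) (θ : ℝ) (hθ0 : 0 ≤ θ)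
    (hθ : θ * (1 + w) < 1) :
    ∀ᶠ L : ℕ in atTop, ∀ b : ℕ, 2 ≤ b → ∀ k : ℕ, (k : ℝ) ≤ θ * L → ¬ MonRelation b x E L k := by
  obtain ⟨p, hp⟩ : ∃ p : ℕ, p = ∑ j, ∑ i, E j i := ⟨_, rfl⟩
  have hEp : ∀ j, ∑ i, E j i ≤ p := fun j => by
    rw [hp]
    exact Finset.single_le_sum (f := fun j => ∑ i, E j i) (fun _ _ => Nat.zero_le _)
      (Finset.mem_univ j)
  filter_upwards [lower2 m p _ w c hw hc hx θ hθ0 hθ] with L hL b hb k hk hrel
  obtain ⟨h, hh0, hhk, hX⟩ := hrel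
  have hb1 : 1 ≤ b := by omega
  have hbR : (1 : ℝ) ≤ b := by exact_mod_cast hb1
  have hz : (0 : ℝ) ≤ (1 / (b : ℝ)) ^ L := by positivity
  have hbL1 : 1 ≤ b * (L + 1) := Nat.mul_pos (by omega) (by omega)
  apply hh0
  refine hL b hb (fun j => ∏ i, (DZ b (x i) L) ^ E j i) ?_ ?_ k hk h hhk ?_
  · intro j l
    have h0 := prod_coeff_nonneg (fun i => DZ b (x i) L) (fun i => DZ_coeff_nonneg (x i) b hb1 L)
      (E j) Finset.univ
    rw [abs_of_nonneg (h0 l)]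
    refine (coeff_le_eval_one _ h0 l).trans ?_
    rw [eval_prod]
    have h1 : (((b * (L + 1)) ^ p : ℕ) : ℤ) = ((b : ℤ) * (L + 1)) ^ p := by push_cast; ring
    have h2 : (1 : ℤ) ≤ (b : ℤ) * (L + 1) := by exact_mod_cast hbL1
    calc ∏ i, eval 1 (DZ b (x i) L ^ E j i) ≤ ∏ i, ((b : ℤ) * (L + 1)) ^ E j i := by
          refine Finset.prod_le_prod (fun i _ => ?_) fun i _ => ?_
          · rw [eval_pow]; exact pow_nonneg (DZ_eval_one (x i) b hb1 L).1 _
          · rw [eval_pow]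
            exact pow_le_pow_left₀ (DZ_eval_one (x i) b hb1 L).1 (DZ_eval_one (x i) b hb1 L).2 _
      _ = ((b : ℤ) * (L + 1)) ^ ∑ i, E j i := by rw [Finset.prod_pow_eq_pow_sum]
      _ ≤ ((b : ℤ) * (L + 1)) ^ p := pow_le_pow_right₀ h2 (hEp j)
      _ = _ := h1.symm
  · intro j
    have hev : ev (1 / (b : ℝ)) (∏ i, (DZ b (x i) L) ^ E j i) =
        ∏ i, (ev (1 / (b : ℝ)) (DZ b (x i) L)) ^ E j i := by
      unfold ev
      rw [Polynomial.map_prod, eval_prod]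
      refine Finset.prod_congr rfl fun i _ => ?_
      rw [Polynomial.map_pow, eval_pow]
    rw [hev]
    have h1 : ∀ i, 0 ≤ ev (1 / (b : ℝ)) (DZ b (x i) L) := by
      intro i
      rw [ev_eq _ _ _ (Nat.lt_succ_self _)]
      refine Finset.sum_nonneg fun l _ => mul_nonneg ?_ (by positivity)
      exact_mod_cast DZ_coeff_nonneg (x i) b hb1 L l
    have h2 : ∀ i, ev (1 / (b : ℝ)) (DZ b (x i) L) ≤ 1 := by
      intro i
      have h3 := (ev_DZ_close (x i) b hb1 L).1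
      have h4 := (Int.fract_lt_one (x i)).le
      linarith
    refine (prod_pow_sub_le _ _ (fun i => Int.fract_nonneg _) (fun i => (Int.fract_lt_one _).le)
      h1 h2 (E j) Finset.univ).trans ?_
    calc ∑ i, (E j i : ℝ) * |Int.fract (x i) - ev (1 / (b : ℝ)) (DZ b (x i) L)|
        ≤ ∑ i, (E j i : ℝ) * (1 / (b : ℝ)) ^ L := by
          refine Finset.sum_le_sum fun i _ => ?_
          refine mul_le_mul_of_nonneg_left ?_ (Nat.cast_nonneg _)
          rw [abs_of_nonneg (ev_DZ_close (x i) b hb1 L).1]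
          exact (ev_DZ_close (x i) b hb1 L).2
      _ = ((∑ i, E j i : ℕ) : ℝ) * (1 / (b : ℝ)) ^ L := by
          rw [← Finset.sum_mul]; push_cast; ring
      _ ≤ (((b * (L + 1)) ^ p : ℕ) : ℝ) * (1 / (b : ℝ)) ^ L := by
          refine mul_le_mul_of_nonneg_right ?_ hz
          have e2 : p < 2 ^ p := Nat.lt_two_pow_self
          have e3 : 2 ^ p ≤ (b * (L + 1)) ^ p := Nat.pow_le_pow_left (by nlinarith) p
          have e4 := hEp j
          exact_mod_cast (by omega : ∑ i, E j i ≤ (b * (L + 1)) ^ p)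
  · have e : ∑ j, h j * (∏ i, (DZ b (x i) L) ^ E j i).map (Int.castRingHom ℚ) =
        ∑ j, h j * ∏ i, digitPoly b (x i) L ^ E j i := by
      refine Finset.sum_congr rfl fun j _ => ?_
      rw [Polynomial.map_prod]
      congr 1
      refine Finset.prod_congr rfl fun i _ => ?_
      rw [Polynomial.map_pow, digitPoly_eq]
    rw [e]; exact hX

/-- **Numbers in a real number field.** -/
theorem mon_field (K : IntermediateField ℚ ℝ) [FiniteDimensional ℚ K] {n m : ℕ} (x : Fin n → ℝ)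
    (hxK : ∀ i, x i ∈ K) (E : Fin (m + 1) → Fin n → ℕ)
    (hli : LinearIndependent ℚ (fun j => ∏ i, Int.fract (x i) ^ E j i)) (ε : ℝ) (hε : 0 < ε) :
    ∃ L₀ : ℕ, ∀ L : ℕ, L₀ ≤ L → ∀ b : ℕ, 2 ≤ b →
      (1 / (finrank ℚ K : ℝ) - ε) * L < monComplexity b x E L ∧
        (monComplexity b x E L : ℝ) < (1 / ((m : ℝ) + 1) + ε) * L := by
  have hd : (1 : ℝ) ≤ finrank ℚ K := by exact_mod_cast (finrank_pos : 0 < finrank ℚ K)
  obtain ⟨c, hc, hM⟩ := liouville_field K (fun j => ∏ i, Int.fract (x i) ^ E j i) (fun j => by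
    refine prod_mem fun i _ => pow_mem ?_ _
    unfold Int.fract
    exact sub_mem (hxK i) (intCast_mem K _)) hli
  have h1 := two_sided_of (fun b L k => MonRelation b x E L k) m ((finrank ℚ K : ℝ) - 1)
    (by linarith) (fun b L k h => monRelation_of_lt b x E L k h)
    (fun θ hθ0 hθ => mon_lower x E _ c (by linarith) hc hM θ hθ0 hθ) ε hε
  rw [sub_add_cancel] at h1
  exact h1

end Pool.Agent.W472.AC
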