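import Mathlib

/-!
# Siegel's lemma with the rank
-/

set_option autoImplicit false

namespace Pool.Agent.W472.AC

open Finset Polynomial Module

attribute [local instance] Matrix.seminormedAddCommGroup

/-- Siegel's lemma for an integer matrix whose kernel contains a space of dimension `s`. -/
theorem siegel_rank {α β : Type} [Fintype α] [Fintype β] [DecidableEq β] (A : Matrix α β ℤ)
    (B : ℕ) (hB : 1 ≤ B) (hA : ∀ i j, |A i j| ≤ B) (s κ : ℕ) (hs : 1 ≤ s)
    (hκ : Fintype.card β ≤ κ * s)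
    (f : (Fin s → ℚ) →ₗ[ℚ] (β → ℚ)) (hf : Function.Injective f)
    (hAf : ∀ g, (A.map (Int.cast : ℤ → ℚ)).mulVec (f g) = 0) :
    ∃ v : β → ℤ, v ≠ 0 ∧ A.mulVec v = 0 ∧ ∀ j, |v j| ≤ ((Fintype.card β * B) ^ κ : ℕ) := by
  classical
  have hsβ : s ≤ Fintype.card β := by
    have h := LinearMap.finrank_le_finrank_of_injective hf
    simpa using h
  obtain ⟨f', hf'm, hf's, hf'i⟩ := Submodule.exists_fun_fin_finrank_span_eq ℚ
    (Set.range (A.map (Int.cast : ℤ → ℚ)).row)
  generalize hr : finrank ℚ (Submodule.span ℚ (Set.range (A.map (Int.cast : ℤ → ℚ)).row)) = r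
    at f' hf'm hf's hf'i
  choose σ hσ using hf'm
  set A' : Matrix (Fin r) β ℤ := A.submatrix σ id with hA'
  have hrow : (A'.map (Int.cast : ℤ → ℚ)).row = f' := by
    funext i
    rw [← hσ i]
    rfl
  have hrk : (A'.map (Int.cast : ℤ → ℚ)).rank = r := by
    have h := LinearIndependent.rank_matrix (M := A'.map (Int.cast : ℤ → ℚ))
      (by rw [hrow]; exact hf'i)
    simpa using h
  have hker : ∀ g, (A'.map (Int.cast : ℤ → ℚ)).mulVec (f g) = 0 := by
    intro g
    funext i
    have h1 := congrFun (hAf g) (σ i)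
    exact h1
  have hrs : r + s ≤ Fintype.card β := by
    have h1 := LinearMap.finrank_range_add_finrank_ker (A'.map (Int.cast : ℤ → ℚ)).mulVecLin
    rw [Module.finrank_fintype_fun_eq_card] at h1
    have h2 : finrank ℚ (LinearMap.range (A'.map (Int.cast : ℤ → ℚ)).mulVecLin) = r := hrk
    have h3 : s ≤ finrank ℚ (LinearMap.ker (A'.map (Int.cast : ℤ → ℚ)).mulVecLin) := by
      have h4 : LinearMap.range f ≤ LinearMap.ker (A'.map (Int.cast : ℤ → ℚ)).mulVecLin := by
        rintro _ ⟨g, rfl⟩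
        rw [LinearMap.mem_ker, Matrix.mulVecLin_apply]
        exact hker g
      have h5 := Submodule.finrank_mono h4
      rw [LinearMap.finrank_range_of_inj hf] at h5
      simpa using h5
    omega
  have hpow1 : (1 : ℤ) ≤ (((Fintype.card β * B) ^ κ : ℕ) : ℤ) := by
    have : 1 ≤ (Fintype.card β * B) ^ κ := Nat.one_le_pow _ _ (Nat.mul_pos (by omega) (by omega))
    exact_mod_cast this
  -- integer vectors killed by `A'` are killed by `A`
  have hkill : ∀ v : β → ℤ, A'.mulVec v = 0 → A.mulVec v = 0 := by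
    intro v hv
    funext i
    have h1 : (A.map (Int.cast : ℤ → ℚ)).row i ∈ Submodule.span ℚ (Set.range f') := by
      rw [hf's]
      exact Submodule.subset_span ⟨i, rfl⟩
    have h2 : ∀ w ∈ Submodule.span ℚ (Set.range f'), ∑ j, w j * (v j : ℚ) = 0 := by
      intro w hw
      induction hw using Submodule.span_induction with
      | mem x hx =>
        obtain ⟨k, rfl⟩ := hx
        have h3 := congrFun hv k
        rw [← hσ k]
        have h4 : ∑ j, A (σ k) j * v j = 0 := h3
        have h5 : ((∑ j, A (σ k) j * v j : ℤ) : ℚ) = 0 := by rw [h4]; simp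
        push_cast at h5
        exact h5
      | zero => simp
      | add x y _ _ hx hy =>
        simp only [Pi.add_apply, add_mul, Finset.sum_add_distrib, hx, hy, add_zero]
      | smul a x _ hx =>
        simp only [Pi.smul_apply, smul_eq_mul, mul_assoc, ← Finset.mul_sum, hx, mul_zero]
    have h3 := h2 _ h1
    have h4 : ((∑ j, A i j * v j : ℤ) : ℚ) = 0 := by
      push_cast
      exact h3
    have h5 : ∑ j, A i j * v j = 0 := by exact_mod_cast h4
    exact h5
  rcases Nat.eq_zero_or_pos r with h0 | hpos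
  · have hβ : 0 < Fintype.card β := by omega
    obtain ⟨j0⟩ := Fintype.card_pos_iff.1 hβ
    subst h0
    refine ⟨Pi.single j0 1, ?_, hkill _ (funext fun i => i.elim0), ?_⟩
    · intro h
      have := congrFun h j0
      simp at this
    · intro j
      by_cases hj : j = j0
      · subst hj
        simpa using hpow1
      · rw [Pi.single_eq_of_ne hj, abs_zero]
        positivity
  · obtain ⟨v, hv0, hv1, hv2⟩ := Int.Matrix.exists_ne_zero_int_vec_norm_le A'
      (by simp only [Fintype.card_fin]; omega) (by simp only [Fintype.card_fin]; omega)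
    simp only [Fintype.card_fin] at hv2
    refine ⟨v, hv0, hkill v hv1, fun j => ?_⟩
    have hAn : ‖A'‖ ≤ B := by
      rw [Matrix.norm_le_iff (by positivity)]
      intro i j
      rw [Int.norm_eq_abs]
      have h := hA (σ i) j
      exact_mod_cast h
    have h1 : ‖v j‖ ≤ ‖v‖ := norm_le_pi_norm v j
    have h2 : (1 : ℝ) ≤ max 1 ‖A'‖ := le_max_left _ _
    have h3 : max 1 ‖A'‖ ≤ (B : ℝ) := max_le (by exact_mod_cast hB) hAn
    have hn1 : (1 : ℝ) ≤ (Fintype.card β : ℝ) := by exact_mod_cast (by omega : 1 ≤ Fintype.card β)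
    have h4 : (1 : ℝ) ≤ (Fintype.card β : ℝ) * max 1 ‖A'‖ := by nlinarith
    have hβr : (r : ℝ) + s ≤ (Fintype.card β : ℝ) := by exact_mod_cast hrs
    have hsR : (1 : ℝ) ≤ (s : ℝ) := by exact_mod_cast hs
    have hκR : (Fintype.card β : ℝ) ≤ κ * s := by exact_mod_cast hκ
    have hκ0 : (0 : ℝ) ≤ κ := Nat.cast_nonneg _
    have h5 : ((r : ℝ) / ((Fintype.card β : ℝ) - r)) ≤ (κ : ℝ) := by
      rw [div_le_iff₀ (by linarith)]
      nlinarith
    have h6 : ‖v j‖ ≤ (((Fintype.card β * B) ^ κ : ℕ) : ℝ) := by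
      calc ‖v j‖ ≤ ‖v‖ := h1
        _ ≤ ((Fintype.card β : ℝ) * max 1 ‖A'‖) ^ ((r : ℝ) / ((Fintype.card β : ℝ) - r)) := hv2
        _ ≤ ((Fintype.card β : ℝ) * max 1 ‖A'‖) ^ (κ : ℝ) :=
            Real.rpow_le_rpow_of_exponent_le h4 h5
        _ = ((Fintype.card β : ℝ) * max 1 ‖A'‖) ^ κ := Real.rpow_natCast _ _
        _ ≤ ((Fintype.card β : ℝ) * B) ^ κ := by
            gcongr
        _ = (((Fintype.card β * B) ^ κ : ℕ) : ℝ) := by push_cast; ring
    rw [Int.norm_eq_abs] at h6
    exact_mod_cast h6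

end Pool.Agent.W472.AC
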